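import Mathlib
import Pool.Agent.H534R3.UD

/-!
# Characteristic functions of random digits
-/

set_option autoImplicit false

open MeasureTheory ProbabilityTheory Filter Topology
open scoped Real

namespace Pool.Agent.R739.RD

open Pool.Agent.H534R3.UDist

/-- distance to the nearest integer -/
noncomputable def dz (x : ℝ) : ℝ := |x - round x|

lemma dz_nonneg (x : ℝ) : 0 ≤ dz x := abs_nonneg _

lemma dz_le (x : ℝ) : dz x ≤ 1 / 2 := abs_sub_round x

lemma dz_le_int (x : ℝ) (m : ℤ) : dz x ≤ |x - m| := round_le x m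

lemma ee_eq (t : ℝ) : ee t = Complex.exp (((2 * π * t : ℝ) : ℂ) * Complex.I) := by
  rw [ee]
  congr 1
  push_cast
  ring

lemma ee_add (s t : ℝ) : ee (s + t) = ee s * ee t := by
  rw [ee_eq, ee_eq, ee_eq, ← Complex.exp_add]
  congr 1
  push_cast
  ring

lemma ee_zero : ee 0 = 1 := by
  rw [ee]; simp

lemma ee_re (t : ℝ) : (ee t).re = Real.cos (2 * π * t) := by
  rw [ee_eq, Complex.exp_ofReal_mul_I_re]

lemma ee_im (t : ℝ) : (ee t).im = Real.sin (2 * π * t) := by
  rw [ee_eq, Complex.exp_ofReal_mul_I_im]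

lemma ee_conj (t : ℝ) : (starRingEnd ℂ) (ee t) = ee (-t) := by
  apply Complex.ext
  · rw [Complex.conj_re, ee_re, ee_re]
    rw [mul_neg, Real.cos_neg]
  · rw [Complex.conj_im, ee_im, ee_im]
    rw [mul_neg, Real.sin_neg]

lemma continuous_ee : Continuous ee := by
  unfold ee
  fun_prop

lemma measurable_ee : Measurable ee := continuous_ee.measurable

lemma sin_sq_ge (s : ℝ) : 4 * dz s ^ 2 ≤ Real.sin (π * s) ^ 2 := by
  have h1 : Real.sin (π * s) ^ 2 = Real.sin (π * dz s) ^ 2 := by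
    have h2 : π * s = π * (s - round s) + (round s : ℤ) * π := by ring
    rw [h2, Real.sin_add_int_mul_pi]
    unfold dz
    rcases abs_cases (s - round s) with ⟨h, _⟩ | ⟨h, _⟩
    · rw [h, mul_pow]
      have : (((-1 : ℝ) ^ (round s)) ^ 2) = 1 := by
        rw [← zpow_natCast, ← zpow_mul, mul_comm, zpow_mul]
        norm_num
      rw [this, one_mul]
    · rw [h, mul_pow, mul_neg, Real.sin_neg]
      have : (((-1 : ℝ) ^ (round s)) ^ 2) = 1 := by
        rw [← zpow_natCast, ← zpow_mul, mul_comm, zpow_mul]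
        norm_num
      rw [this, one_mul]
      ring
  rw [h1]
  have h3 : 2 / π * (π * dz s) ≤ Real.sin (π * dz s) := by
    apply Real.mul_le_sin
    · exact mul_nonneg Real.pi_pos.le (dz_nonneg s)
    · have := dz_le s
      nlinarith [Real.pi_pos]
  have h4 : 2 / π * (π * dz s) = 2 * dz s := by
    field_simp
  rw [h4] at h3
  have h5 := dz_nonneg s
  nlinarith

lemma norm_two (p q s c : ℝ) (hc : 0 < c) (hp : c ≤ p) (hq : c ≤ q) :
    ‖(p : ℂ) + q * ee s‖ ≤ p + q - 4 * c * dz s ^ 2 := by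
  have h1 : ‖(p : ℂ) + q * ee s‖ ^ 2 = (p + q) ^ 2 - 4 * p * q * Real.sin (π * s) ^ 2 := by
    rw [← Complex.normSq_eq_norm_sq, Complex.normSq_apply]
    simp only [Complex.add_re, Complex.ofReal_re, Complex.mul_re, Complex.ofReal_im, zero_mul,
      sub_zero, Complex.add_im, Complex.mul_im, zero_add, add_zero, ee_re, ee_im]
    have e1 : 2 * π * s = 2 * (π * s) := by ring
    rw [e1, Real.cos_two_mul, Real.sin_two_mul]
    have e2 := Real.sin_sq_add_cos_sq (π * s)
    have e3 : Real.cos (π * s) ^ 2 = 1 - Real.sin (π * s) ^ 2 := by linarith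
    have e4 : 2 * Real.sin (π * s) * Real.cos (π * s) * (2 * Real.sin (π * s) * Real.cos (π * s)) =
      4 * Real.sin (π * s) ^ 2 * Real.cos (π * s) ^ 2 := by ring
    have e5 : q * (2 * Real.sin (π * s) * Real.cos (π * s)) *
      (q * (2 * Real.sin (π * s) * Real.cos (π * s))) =
      q ^ 2 * (4 * Real.sin (π * s) ^ 2 * Real.cos (π * s) ^ 2) := by ring
    rw [e5, e3]
    ring
  have h2 := sin_sq_ge s
  have h3 := dz_nonneg s
  have h4 := dz_le s
  have h5 : dz s ^ 2 ≤ 1 / 4 := by nlinarith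
  have h6 : 0 ≤ dz s ^ 2 := sq_nonneg _
  have h7 : 0 ≤ p + q - 4 * c * dz s ^ 2 := by nlinarith
  refine abs_le_of_sq_le_sq' ?_ h7 |>.2
  rw [h1]
  have h8 : c * q ≤ p * q := mul_le_mul_of_nonneg_right hp (by linarith)
  have h9 : c * p ≤ p * q := by
    have := mul_le_mul_of_nonneg_left hq (show 0 ≤ p by linarith)
    linarith
  have h10 : 0 ≤ p * q := by nlinarith
  have h11 : 4 * p * q * (4 * dz s ^ 2) ≤ 4 * p * q * Real.sin (π * s) ^ 2 := by
    apply mul_le_mul_of_nonneg_left h2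
    nlinarith
  have h12 : 8 * c * (p + q) * dz s ^ 2 ≤ 16 * (p * q) * dz s ^ 2 := by
    apply mul_le_mul_of_nonneg_right _ h6
    nlinarith
  have h13 : 0 ≤ (4 * c * dz s ^ 2) ^ 2 := sq_nonneg _
  nlinarith

lemma integrable_ee {α : Type} [MeasurableSpace α] (μ : Measure α) [IsFiniteMeasure μ]
    (f : α → ℝ) (hf : Measurable f) : Integrable (fun y => ee (f y)) μ := by
  refine Integrable.of_bound (measurable_ee.comp hf).aestronglyMeasurable 1
    (Eventually.of_forall fun y => ?_)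
  exact (norm_ee _).le

/-- a law with two atoms -/
lemma two_atoms (μ : Measure ℝ) [IsProbabilityMeasure μ] (x l c u : ℝ) (hl : l ≠ 0) (hc : 0 < c)
    (h1 : c ≤ μ.real {x}) (h2 : c ≤ μ.real {x + l}) :
    ‖∫ y, ee (u * y) ∂μ‖ ≤ 1 - 4 * c * dz (u * l) ^ 2 := by
  set p := μ.real {x}
  set q := μ.real {x + l}
  have hint : Integrable (fun y => ee (u * y)) μ := integrable_ee μ _ (by fun_prop)
  have hdisj : Disjoint ({x} : Set ℝ) {x + l} := by
    rw [Set.disjoint_singleton]
    intro h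
    apply hl
    linarith
  have hm : MeasurableSet (({x} : Set ℝ) ∪ {x + l}) :=
    (measurableSet_singleton _).union (measurableSet_singleton _)
  have e1 : ∫ y, ee (u * y) ∂μ = (∫ y in (({x} : Set ℝ) ∪ {x + l}), ee (u * y) ∂μ) +
      ∫ y in (({x} : Set ℝ) ∪ {x + l})ᶜ, ee (u * y) ∂μ := (integral_add_compl hm hint).symm
  have e2 : ∫ y in (({x} : Set ℝ) ∪ {x + l}), ee (u * y) ∂μ = ee (u * x) * (p + q * ee (u * l)) := by
    rw [setIntegral_union hdisj (measurableSet_singleton _) hint.integrableOn hint.integrableOn,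
      integral_singleton, integral_singleton]
    rw [mul_add u x l, ee_add]
    simp only [Complex.real_smul]
    ring
  have e3 : μ.real (({x} : Set ℝ) ∪ {x + l}) = p + q :=
    measureReal_union hdisj (measurableSet_singleton _)
  have e4 : μ.real (({x} : Set ℝ) ∪ {x + l})ᶜ = 1 - (p + q) := by
    rw [measureReal_compl hm, e3]
    simp
  have e5 : ‖∫ y in (({x} : Set ℝ) ∪ {x + l})ᶜ, ee (u * y) ∂μ‖ ≤ 1 - (p + q) := by
    have := norm_setIntegral_le_of_norm_le_const (μ := μ) (s := (({x} : Set ℝ) ∪ {x + l})ᶜ)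
      (f := fun y => ee (u * y)) (C := 1) (measure_lt_top _ _) (fun y _ => (norm_ee _).le)
    rw [one_mul, e4] at this
    exact this
  rw [e1]
  refine (norm_add_le _ _).trans ?_
  have e6 : ‖∫ y in (({x} : Set ℝ) ∪ {x + l}), ee (u * y) ∂μ‖ ≤ p + q - 4 * c * dz (u * l) ^ 2 := by
    rw [e2, norm_mul, norm_ee, one_mul]
    exact norm_two p q (u * l) c hc h1 h2
  linarith

lemma norm_int_le {Ω : Type} [MeasurableSpace Ω] (P : Measure Ω) [IsProbabilityMeasure P]
    (f : Ω → ℝ) : ‖∫ ω, ee (f ω) ∂P‖ ≤ 1 := by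
  have := norm_integral_le_of_norm_le_const (μ := P) (f := fun ω => ee (f ω)) (C := 1)
    (Eventually.of_forall fun y => (norm_ee _).le)
  simpa using this

lemma chi_prod {Ω : Type} [MeasurableSpace Ω] (P : Measure Ω) [IsProbabilityMeasure P]
    (W : ℕ → Ω → ℝ) (hW : ∀ j, Measurable (W j)) (hI : iIndepFun W P) (n : ℕ) (t : ℝ) :
    ∫ ω, ee (t * ∑ j ∈ Finset.range n, W j ω) ∂P =
      ∏ j ∈ Finset.range n, ∫ ω, ee (t * W j ω) ∂P := by
  have key : ∀ X : Ω → ℝ, Measurable X →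
      ∫ ω, ee (t * X ω) ∂P = charFun (P.map X) (2 * π * t) := by
    intro X hX
    rw [charFun_apply_real, integral_map hX.aemeasurable (by fun_prop)]
    refine integral_congr_ae (Eventually.of_forall fun ω => ?_)
    show ee (t * X ω) = _
    rw [ee_eq]
    congr 1
    push_cast
    ring
  have h1 := (hI.restrict (Finset.range n : Finset ℕ)).charFun_map_fun_finsetSum_eq_prod
    (fun i _ => (hW i).aemeasurable)
  rw [key _ (Finset.measurable_fun_sum _ fun j _ => hW j), h1, Finset.prod_apply]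
  exact Finset.prod_congr rfl fun j _ => (key _ (hW j)).symm

lemma chi_le {Ω : Type} [MeasurableSpace Ω] (P : Measure Ω) [IsProbabilityMeasure P]
    (W : ℕ → Ω → ℝ) (hW : ∀ j, Measurable (W j)) (hI : iIndepFun W P) (ξ : Ω → ℝ)
    (hs : ∀ ω, Tendsto (fun n => ∑ j ∈ Finset.range n, W j ω) atTop (𝓝 (ξ ω)))
    (t : ℝ) (S : Finset ℕ) :
    ‖∫ ω, ee (t * ξ ω) ∂P‖ ≤ ∏ j ∈ S, ‖∫ ω, ee (t * W j ω) ∂P‖ := by
  have h1 : Tendsto (fun n => ∫ ω, ee (t * ∑ j ∈ Finset.range n, W j ω) ∂P) atTop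
      (𝓝 (∫ ω, ee (t * ξ ω) ∂P)) := by
    refine tendsto_integral_of_dominated_convergence (fun _ => (1 : ℝ)) ?_ ?_ ?_ ?_
    · intro n
      exact (integrable_ee P _ (by
        exact (Finset.measurable_fun_sum _ fun j _ => hW j).const_mul t)).aestronglyMeasurable
    · exact integrable_const _
    · intro n
      exact Eventually.of_forall fun ω => (norm_ee _).le
    · refine Eventually.of_forall fun ω => ?_
      exact (continuous_ee.tendsto _).comp ((hs ω).const_mul t)
  refine le_of_tendsto h1.norm ?_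
  obtain ⟨n0, hn0⟩ := S.exists_nat_subset_range
  filter_upwards [eventually_ge_atTop n0] with n hn
  have hsub : S ⊆ Finset.range n := hn0.trans (Finset.range_subset_range.2 hn)
  rw [chi_prod P W hW hI n t, norm_prod, ← Finset.prod_sdiff hsub]
  have h2 : ∏ j ∈ Finset.range n \ S, ‖∫ ω, ee (t * W j ω) ∂P‖ ≤ 1 :=
    Finset.prod_le_one (fun j _ => norm_nonneg _) fun j _ => norm_int_le P _
  have h3 : 0 ≤ ∏ j ∈ S, ‖∫ ω, ee (t * W j ω) ∂P‖ := Finset.prod_nonneg fun j _ => norm_nonneg _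
  calc _ ≤ 1 * ∏ j ∈ S, ‖∫ ω, ee (t * W j ω) ∂P‖ := mul_le_mul_of_nonneg_right h2 h3
    _ = _ := one_mul _

end Pool.Agent.R739.RD
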