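import Mathlib
import Pool.Agent.R739.RD.Chi
import Pool.Agent.TH373.EN.Arc

/-!
# Windows of digits of the numbers `κ e ^ n - θ`
-/

set_option autoImplicit false

open Finset Filter Topology
open scoped Real

namespace Pool.Agent.R739.RD

lemma dz_mul (b : ℕ) (hb : 2 ≤ b) (x : ℝ) (h : dz x < 1 / (2 * b)) : b * dz x ≤ dz (b * x) := by
  have hb0 : (0 : ℝ) < b := by
    have : 0 < b := by omega
    exact_mod_cast this
  have h1 : (b : ℝ) * dz x < 1 / 2 := by
    rw [lt_div_iff₀ (by positivity)] at h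
    linarith
  set m : ℤ := round ((b : ℝ) * x) with hm
  set k : ℤ := round x with hk
  have e1 : dz (b * x) = |(b : ℝ) * x - m| := rfl
  have e2 : dz x = |x - k| := rfl
  have e3 : (b : ℝ) * dz x = |(b : ℝ) * x - (b : ℝ) * k| := by
    rw [e2, ← mul_sub, abs_mul, abs_of_pos hb0]
  by_cases hmk : m = b * k
  · rw [e3, e1, hmk]
    push_cast
    exact le_rfl
  · have h2 : (1 : ℝ) ≤ |(m : ℝ) - b * k| := by
      have h3 : (1 : ℤ) ≤ |m - b * k| := Int.one_le_abs (sub_ne_zero.2 hmk)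
      have : ((1 : ℤ) : ℝ) ≤ ((|m - b * k| : ℤ) : ℝ) := by exact_mod_cast h3
      push_cast at this
      exact this
    have h4 : |(m : ℝ) - b * k| ≤ |(b : ℝ) * x - m| + |(b : ℝ) * x - b * k| := by
      have := abs_sub_le (m : ℝ) (b * x) (b * k)
      rwa [abs_sub_comm (m : ℝ) (b * x)] at this
    rw [e1, e3]
    rw [e3] at h1
    linarith

lemma win_aux (b : ℕ) (hb : 2 ≤ b) (l : ℕ) (u : ℝ)
    (h : ∀ i < l, dz ((b : ℝ) ^ i * u) < 1 / (2 * b)) :
    ∀ i < l, (b : ℝ) ^ i * dz u ≤ dz ((b : ℝ) ^ i * u) := by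
  intro i
  induction i with
  | zero => intro _; simp
  | succ i ih =>
    intro hi
    have h1 := ih (by omega)
    have h2 := dz_mul b hb _ (h i (by omega))
    have h3 : (b : ℝ) * ((b : ℝ) ^ i * dz u) ≤ b * dz ((b : ℝ) ^ i * u) :=
      mul_le_mul_of_nonneg_left h1 (Nat.cast_nonneg b)
    have e1 : (b : ℝ) ^ (i + 1) * dz u = b * ((b : ℝ) ^ i * dz u) := by ring
    have e2 : (b : ℝ) ^ (i + 1) * u = b * ((b : ℝ) ^ i * u) := by ring
    rw [e1, e2]
    exact h3.trans h2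

lemma win (b : ℕ) (hb : 2 ≤ b) (l : ℕ) (hl : 1 ≤ l) (u : ℝ)
    (h : ∀ i < l, dz ((b : ℝ) ^ i * u) < 1 / (2 * b)) : dz u < 1 / (2 * (b : ℝ) ^ l) := by
  have hb0 : (0 : ℝ) < b := by
    have : 0 < b := by omega
    exact_mod_cast this
  obtain ⟨k, rfl⟩ : ∃ k, l = k + 1 := ⟨l - 1, by omega⟩
  have h1 := win_aux b hb (k + 1) u h k (by omega)
  have h2 := h k (by omega)
  have h3 := lt_of_le_of_lt h1 h2
  rw [lt_div_iff₀ (by positivity)] at h3 ⊢
  calc dz u * (2 * (b : ℝ) ^ (k + 1)) = (b : ℝ) ^ k * dz u * (2 * b) := by ring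
    _ < 1 := h3

open Classical in
/-- the integers `n` such that the window `(J - l, J]` of digits of `κ e ^ n - θ` is bad -/
noncomputable def bad (b : ℕ) (κ θ : ℝ) (X N J l : ℕ) : Finset ℕ :=
  (Ioc X N).filter fun n : ℕ =>
    ∀ i < l, dz ((b : ℝ) ^ i * ((κ * Real.exp n - θ) / (b : ℝ) ^ J)) < 1 / (2 * b)

theorem card_bad : ∃ A : ℝ, 0 < A ∧ ∀ (b : ℕ), 2 ≤ b → ∀ κ : ℝ, κ ≠ 0 → ∀ δ : ℝ, 0 < δ → δ ≤ 1 →
    ∀ (X N J l : ℕ), 1 ≤ N → 1 ≤ l → Real.exp (δ * N) ≤ (b : ℝ) ^ l →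
    J * Real.log b ≤ X → ∀ θ : ℝ,
    ((bad b κ θ X N J l).card : ℝ) ≤
      A / δ * ((N : ℝ) ^ (1 - δ ^ 2 / 1280) + (|Real.log (|κ|)| + 1)) := by
  classical
  obtain ⟨A, hA, harc⟩ := Pool.Agent.TH373.EN.arc
  refine ⟨A, hA, ?_⟩
  intro b hb κ hκ δ hδ hδ1 X N J l hN hl hbl hJX θ
  have hb0 : (0 : ℝ) < b := by
    have : 0 < b := by omega
    exact_mod_cast this
  have hb1 : (1 : ℝ) ≤ b := by
    have : 1 ≤ b := by omega
    exact_mod_cast this
  have hlog : 0 ≤ Real.log b := Real.log_nonneg hb1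
  set n0 : ℕ := ⌊(J : ℝ) * Real.log b⌋₊ with hn0
  have hy0 : 0 ≤ (J : ℝ) * Real.log b := mul_nonneg (Nat.cast_nonneg J) hlog
  have hn0a : (n0 : ℝ) ≤ J * Real.log b := Nat.floor_le hy0
  have hn0b : (J : ℝ) * Real.log b < n0 + 1 := Nat.lt_floor_add_one _
  have hn0X : n0 ≤ X := by
    have : (n0 : ℝ) ≤ X := hn0a.trans hJX
    exact_mod_cast this
  set ξ : ℝ := κ * Real.exp n0 / (b : ℝ) ^ J with hξ
  have hbJ : (0 : ℝ) < (b : ℝ) ^ J := by positivity
  have hξ0 : ξ ≠ 0 := div_ne_zero (mul_ne_zero hκ (Real.exp_pos _).ne') hbJ.ne'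
  have hlogξ : |Real.log (|ξ|)| ≤ |Real.log (|κ|)| + 1 := by
    have e1 : |ξ| = |κ| * Real.exp n0 / (b : ℝ) ^ J := by
      rw [hξ, abs_div, abs_mul, abs_of_pos (Real.exp_pos _), abs_of_pos hbJ]
    have e2 : Real.log (|ξ|) = Real.log (|κ|) + (n0 - J * Real.log b) := by
      rw [e1, Real.log_div (mul_ne_zero (abs_ne_zero.2 hκ) (Real.exp_pos _).ne') hbJ.ne',
        Real.log_mul (abs_ne_zero.2 hκ) (Real.exp_pos _).ne', Real.log_exp, Real.log_pow]
      ring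
    rw [e2]
    refine (abs_add_le _ _).trans ?_
    have : |(n0 : ℝ) - J * Real.log b| ≤ 1 := by
      rw [abs_le]
      constructor <;> linarith
    linarith
  have h1 := harc δ hδ hδ1 N hN ξ (θ / (b : ℝ) ^ J) hξ0
  have h2 : (bad b κ θ X N J l).card ≤
      ((Icc 1 N).filter (fun n : ℕ => Pool.Agent.TH373.EN.Bad δ ξ (θ / (b : ℝ) ^ J) n)).card := by
    apply Finset.card_le_card_of_injOn (fun n => n - n0)
    · intro n hn
      have hn' : n ∈ (Ioc X N).filter fun n : ℕ =>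
        ∀ i < l, dz ((b : ℝ) ^ i * ((κ * Real.exp n - θ) / (b : ℝ) ^ J)) < 1 / (2 * b) := hn
      rw [mem_filter, mem_Ioc] at hn'
      obtain ⟨⟨hX, hNn⟩, hw⟩ := hn'
      have hnn : n0 ≤ n := by omega
      rw [mem_coe, mem_filter, mem_Icc]
      have g1 : 1 ≤ n - n0 := by omega
      have g2 : n - n0 ≤ N := by omega
      refine ⟨⟨g1, g2⟩, ?_⟩
      have hw2 := win b hb l hl _ hw
      refine ⟨round ((κ * Real.exp n - θ) / (b : ℝ) ^ J), 1, le_refl 1, ?_, ?_⟩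
      · rw [Nat.cast_one]
        apply Real.one_le_exp
        positivity
      · have e3 : ξ * Real.exp ((n - n0 : ℕ) : ℝ) - θ / (b : ℝ) ^ J =
            (κ * Real.exp n - θ) / (b : ℝ) ^ J := by
          rw [hξ, Nat.cast_sub hnn, Real.exp_sub]
          have := (Real.exp_pos (n0 : ℝ)).ne'
          field_simp
        rw [e3, Nat.cast_one, div_one]
        have e4 : dz ((κ * Real.exp n - θ) / (b : ℝ) ^ J) =
            |(κ * Real.exp n - θ) / (b : ℝ) ^ J - round ((κ * Real.exp n - θ) / (b : ℝ) ^ J)| := rfl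
        rw [← e4]
        refine lt_of_lt_of_le hw2 ?_
        have h3 : 1 / (2 * (b : ℝ) ^ l) ≤ 1 / (b : ℝ) ^ l := by
          apply one_div_le_one_div_of_le (by positivity)
          have : (0 : ℝ) < (b : ℝ) ^ l := by positivity
          linarith
        refine h3.trans ?_
        rw [Real.exp_neg, ← one_div]
        apply one_div_le_one_div_of_le (Real.exp_pos _)
        refine le_trans (Real.exp_le_exp.2 ?_) hbl
        apply mul_le_mul_of_nonneg_left _ hδ.le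
        have : n - n0 ≤ N := by omega
        exact_mod_cast this
    · intro n hn m hm hnm
      have hn' : n ∈ (Ioc X N).filter fun n : ℕ =>
        ∀ i < l, dz ((b : ℝ) ^ i * ((κ * Real.exp n - θ) / (b : ℝ) ^ J)) < 1 / (2 * b) := hn
      have hm' : m ∈ (Ioc X N).filter fun n : ℕ =>
        ∀ i < l, dz ((b : ℝ) ^ i * ((κ * Real.exp n - θ) / (b : ℝ) ^ J)) < 1 / (2 * b) := hm
      rw [mem_filter, mem_Ioc] at hn' hm'
      simp only at hnm
      omega
  have h3 : ((bad b κ θ X N J l).card : ℝ) ≤ A / δ * ((N : ℝ) ^ (1 - δ ^ 2 / 1280) +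
      |Real.log (|ξ|)|) := by
    refine le_trans (Nat.cast_le.2 h2) ?_
    convert h1 using 2
  refine h3.trans ?_
  apply mul_le_mul_of_nonneg_left _ (by positivity)
  linarith

end Pool.Agent.R739.RD
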