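import Mathlib
import Pool.Agent.R739.RD.Win

/-!
# Second moments of the Weyl sums
-/

set_option autoImplicit false

open Finset Filter Topology MeasureTheory
open scoped Real

namespace Pool.Agent.R739.RD

open Pool.Agent.H534R3.UDist

/-- the decay of the characteristic function of `ξ` along the digits in base `b` -/
def Dec {Ω : Type} [MeasurableSpace Ω] (P : Measure Ω) (ξ : Ω → ℝ) (b : ℕ) (lam ρ : ℝ) : Prop :=
  ∀ (t : ℝ) (S : Finset ℕ), (∀ j ∈ S, 1 / (2 * b) ≤ dz (lam * t / (b : ℝ) ^ (j + 1))) →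
    ‖∫ ω, ee (t * ξ ω) ∂P‖ ≤ ρ ^ S.card

lemma small_of_good {Ω : Type} [MeasurableSpace Ω] {P : Measure Ω} {ξ : Ω → ℝ} {b : ℕ}
    {lam ρ : ℝ} (hD : Dec P ξ b lam ρ) (hb : 2 ≤ b) (a : ℝ) (X N K l : ℕ) (n m : ℕ)
    (hn : n ∈ Ioc X N)
    (h : ∀ k < K, n ∉ bad b (lam * a) (lam * a * Real.exp m) X N ((k + 1) * l) l) :
    ‖∫ ω, ee (a * (Real.exp n - Real.exp m) * ξ ω) ∂P‖ ≤ ρ ^ K := by
  classical
  have hb0 : (0 : ℝ) < b := by
    have : 0 < b := by omega
    exact_mod_cast this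
  have h1 : ∀ k : ℕ, ∃ i : ℕ, k < K → i < l ∧ 1 / (2 * b) ≤ dz ((b : ℝ) ^ i *
      ((lam * a * Real.exp n - lam * a * Real.exp m) / (b : ℝ) ^ ((k + 1) * l))) := by
    intro k
    by_cases hk : k < K
    · have h2 := h k hk
      rw [bad, mem_filter] at h2
      push Not at h2
      obtain ⟨i, hi, hi2⟩ := h2 hn
      exact ⟨i, fun _ => ⟨hi, hi2⟩⟩
    · exact ⟨0, fun h => absurd h hk⟩
  choose i hi using h1
  set j : ℕ → ℕ := fun k => (k + 1) * l - i k - 1 with hj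
  have hj1 : ∀ k < K, k * l ≤ j k ∧ j k < (k + 1) * l ∧ j k + 1 + i k = (k + 1) * l := by
    intro k hk
    have h3 := (hi k hk).1
    have e : (k + 1) * l = k * l + l := by ring
    simp only [hj]
    omega
  have hinj : Set.InjOn j (range K : Finset ℕ) := by
    intro k hk k' hk' he
    rw [mem_coe, mem_range] at hk hk'
    have h3 := hj1 k hk
    have h4 := hj1 k' hk'
    rw [he] at h3
    by_contra hne
    rcases Nat.lt_or_gt_of_ne hne with hlt | hlt
    · have : (k + 1) * l ≤ k' * l := Nat.mul_le_mul_right l hlt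
      omega
    · have : (k' + 1) * l ≤ k * l := Nat.mul_le_mul_right l hlt
      omega
  have hcard : ((range K).image j).card = K := by
    rw [card_image_of_injOn hinj, card_range]
  have h5 := hD (a * (Real.exp n - Real.exp m)) ((range K).image j) ?_
  · rwa [hcard] at h5
  · intro q hq
    rw [mem_image] at hq
    obtain ⟨k, hk, rfl⟩ := hq
    rw [mem_range] at hk
    have h6 := (hi k hk).2
    have h7 := (hj1 k hk).2.2
    have e : lam * (a * (Real.exp n - Real.exp m)) / (b : ℝ) ^ (j k + 1) = (b : ℝ) ^ i k *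
      ((lam * a * Real.exp n - lam * a * Real.exp m) / (b : ℝ) ^ ((k + 1) * l)) := by
      rw [← h7, pow_add (b : ℝ) (j k + 1) (i k)]
      have h8 : (b : ℝ) ^ (j k + 1) ≠ 0 := by positivity
      have h9 : (b : ℝ) ^ i k ≠ 0 := by positivity
      field_simp
    rw [e]
    exact h6

/-- the Weyl sum -/
noncomputable def TT (z : ℕ → ℂ) (a : ℝ) (X N : ℕ) (x : ℝ) : ℂ :=
  ∑ n ∈ Ioc X N, z n * ee (a * x * Real.exp n)

lemma measurable_TT (z : ℕ → ℂ) (a : ℝ) (X N : ℕ) : Measurable (TT z a X N) := by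
  unfold TT
  refine Finset.measurable_fun_sum _ fun n _ => ?_
  exact (measurable_ee.comp (by fun_prop)).const_mul _

lemma norm_TT_le (z : ℕ → ℂ) (hz : ∀ n, ‖z n‖ ≤ 1) (a : ℝ) (X N : ℕ) (x : ℝ) :
    ‖TT z a X N x‖ ≤ ((N - X : ℕ) : ℝ) := by
  unfold TT
  refine (norm_sum_le _ _).trans ?_
  calc ∑ n ∈ Ioc X N, ‖z n * ee (a * x * Real.exp n)‖ ≤ ∑ n ∈ Ioc X N, (1 : ℝ) := by
        refine sum_le_sum fun n _ => ?_
        rw [norm_mul, norm_ee, mul_one]
        exact hz n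
    _ = ((N - X : ℕ) : ℝ) := by simp

lemma mom_le {Ω : Type} [MeasurableSpace Ω] {P : Measure Ω} [IsProbabilityMeasure P]
    {ξ : Ω → ℝ} (hξ : Measurable ξ) (z : ℕ → ℂ) (hz : ∀ n, ‖z n‖ ≤ 1) (a : ℝ) (X N : ℕ) :
    ∫ ω, ‖TT z a X N (ξ ω)‖ ^ 2 ∂P ≤
      ∑ m ∈ Ioc X N, ∑ n ∈ Ioc X N, ‖∫ ω, ee (a * (Real.exp n - Real.exp m) * ξ ω) ∂P‖ := by
  have e1 : ∀ ω, ((‖TT z a X N (ξ ω)‖ ^ 2 : ℝ) : ℂ) =
      ∑ m ∈ Ioc X N, ∑ n ∈ Ioc X N, (z n * (starRingEnd ℂ) (z m)) *
        ee (a * (Real.exp n - Real.exp m) * ξ ω) := by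
    intro ω
    have h1 : ((‖TT z a X N (ξ ω)‖ ^ 2 : ℝ) : ℂ) =
        TT z a X N (ξ ω) * (starRingEnd ℂ) (TT z a X N (ξ ω)) := by
      rw [Complex.mul_conj, Complex.normSq_eq_norm_sq]
    rw [h1, mul_comm]
    unfold TT
    rw [map_sum, sum_mul]
    refine sum_congr rfl fun m _ => ?_
    rw [mul_sum]
    refine sum_congr rfl fun n _ => ?_
    rw [map_mul, ee_conj]
    have e2 : a * (Real.exp n - Real.exp m) * ξ ω =
      a * ξ ω * Real.exp n + -(a * ξ ω * Real.exp m) := by ring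
    rw [e2, ee_add]
    ring
  have hint : ∀ n m : ℕ, Integrable (fun ω => (z n * (starRingEnd ℂ) (z m)) *
        ee (a * (Real.exp n - Real.exp m) * ξ ω)) P := fun n m =>
    (integrable_ee P _ (hξ.const_mul _)).const_mul _
  have e3 : ((∫ ω, ‖TT z a X N (ξ ω)‖ ^ 2 ∂P : ℝ) : ℂ) =
      ∑ m ∈ Ioc X N, ∑ n ∈ Ioc X N, (z n * (starRingEnd ℂ) (z m)) *
        ∫ ω, ee (a * (Real.exp n - Real.exp m) * ξ ω) ∂P := by
    rw [← integral_complex_ofReal]
    simp only [e1]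
    rw [integral_finsetSum _ fun m _ => integrable_finsetSum _ fun n _ => hint n m]
    refine sum_congr rfl fun m _ => ?_
    rw [integral_finsetSum _ fun n _ => hint n m]
    exact sum_congr rfl fun n _ => integral_const_mul _ _
  have h4 : ∫ ω, ‖TT z a X N (ξ ω)‖ ^ 2 ∂P = ‖((∫ ω, ‖TT z a X N (ξ ω)‖ ^ 2 ∂P : ℝ) : ℂ)‖ := by
    rw [Complex.norm_real, Real.norm_eq_abs, abs_of_nonneg]
    exact integral_nonneg fun ω => sq_nonneg _
  rw [h4, e3]
  refine (norm_sum_le _ _).trans (sum_le_sum fun m _ => ?_)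
  refine (norm_sum_le _ _).trans (sum_le_sum fun n _ => ?_)
  rw [norm_mul, norm_mul, RCLike.norm_conj]
  have h5 : ‖z n‖ * ‖z m‖ ≤ 1 := by
    have := mul_le_mul (hz n) (hz m) (norm_nonneg _) zero_le_one
    simpa using this
  calc _ ≤ 1 * ‖∫ ω, ee (a * (Real.exp n - Real.exp m) * ξ ω) ∂P‖ :=
        mul_le_mul_of_nonneg_right h5 (norm_nonneg _)
    _ = _ := one_mul _

theorem moment : ∃ A : ℝ, 0 < A ∧ ∀ {Ω : Type} [MeasurableSpace Ω] (P : Measure Ω)
    [IsProbabilityMeasure P] (ξ : Ω → ℝ), Measurable ξ → ∀ (b : ℕ) (lam ρ : ℝ), 2 ≤ b → lam ≠ 0 →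
    0 ≤ ρ → Dec P ξ b lam ρ → ∀ (z : ℕ → ℂ), (∀ n, ‖z n‖ ≤ 1) → ∀ a : ℝ, a ≠ 0 → ∀ δ : ℝ, 0 < δ →
    δ ≤ 1 → ∀ (X N K l : ℕ), 1 ≤ N → 1 ≤ l → Real.exp (δ * N) ≤ (b : ℝ) ^ l →
    K * l * Real.log b ≤ X →
    ∫ ω, ‖TT z a X N (ξ ω)‖ ^ 2 ∂P ≤
      N * (N * ρ ^ K + K * (A / δ * ((N : ℝ) ^ (1 - δ ^ 2 / 1280) +
        (|Real.log (|lam * a|)| + 1)))) := by
  classical
  obtain ⟨A, hA, hcard⟩ := card_bad
  refine ⟨A, hA, ?_⟩
  intro Ω _ P _ ξ hξ b lam ρ hb hlam hρ hD z hz a ha δ hδ hδ1 X N K l hN hl hbl hKl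
  refine (mom_le hξ z hz a X N).trans ?_
  set B : ℝ := A / δ * ((N : ℝ) ^ (1 - δ ^ 2 / 1280) + (|Real.log (|lam * a|)| + 1)) with hB
  have hb0 : (0 : ℝ) < b := by
    have : 0 < b := by omega
    exact_mod_cast this
  have hb1 : (1 : ℝ) ≤ b := by
    have : 1 ≤ b := by omega
    exact_mod_cast this
  have hlog : 0 ≤ Real.log b := Real.log_nonneg hb1
  have hB0 : 0 ≤ B := by positivity
  have hcI : ((Ioc X N).card : ℝ) ≤ N := by
    rw [Nat.card_Ioc]
    exact_mod_cast Nat.sub_le N X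
  have hinner : ∀ m ∈ Ioc X N, ∑ n ∈ Ioc X N,
      ‖∫ ω, ee (a * (Real.exp n - Real.exp m) * ξ ω) ∂P‖ ≤ N * ρ ^ K + K * B := by
    intro m _
    set U : Finset ℕ := (range K).biUnion fun k =>
      bad b (lam * a) (lam * a * Real.exp m) X N ((k + 1) * l) l with hU
    have hUc : (U.card : ℝ) ≤ K * B := by
      have h1 : U.card ≤ ∑ k ∈ range K,
        (bad b (lam * a) (lam * a * Real.exp m) X N ((k + 1) * l) l).card := card_biUnion_le
      have h2 : (U.card : ℝ) ≤ ∑ k ∈ range K,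
        ((bad b (lam * a) (lam * a * Real.exp m) X N ((k + 1) * l) l).card : ℝ) := by
        exact_mod_cast h1
      refine h2.trans ?_
      calc _ ≤ ∑ k ∈ range K, B := by
            refine sum_le_sum fun k hk => ?_
            rw [mem_range] at hk
            refine hcard b hb (lam * a) (mul_ne_zero hlam ha) δ hδ hδ1 X N ((k + 1) * l) l hN hl
              hbl ?_ _
            refine le_trans ?_ hKl
            apply mul_le_mul_of_nonneg_right _ hlog
            push_cast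
            apply mul_le_mul_of_nonneg_right _ (Nat.cast_nonneg l)
            have : k + 1 ≤ K := hk
            exact_mod_cast this
        _ = K * B := by simp
    have hρK : 0 ≤ ρ ^ K := pow_nonneg hρ K
    calc ∑ n ∈ Ioc X N, ‖∫ ω, ee (a * (Real.exp n - Real.exp m) * ξ ω) ∂P‖
        ≤ ∑ n ∈ Ioc X N, (ρ ^ K + if n ∈ U then (1 : ℝ) else 0) := by
          refine sum_le_sum fun n hn => ?_
          by_cases hnU : n ∈ U
          · rw [if_pos hnU]
            have := norm_int_le P (fun ω => a * (Real.exp n - Real.exp m) * ξ ω)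
            linarith
          · rw [if_neg hnU, add_zero]
            apply small_of_good hD hb a X N K l n m hn
            intro k hk hmem
            apply hnU
            rw [hU, mem_biUnion]
            exact ⟨k, mem_range.2 hk, hmem⟩
      _ = (Ioc X N).card * ρ ^ K + ∑ n ∈ Ioc X N, (if n ∈ U then (1 : ℝ) else 0) := by
          rw [sum_add_distrib, sum_const, nsmul_eq_mul]
      _ ≤ N * ρ ^ K + K * B := by
          apply add_le_add
          · exact mul_le_mul_of_nonneg_right hcI hρK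
          · refine le_trans ?_ hUc
            rw [← sum_filter, sum_const, nsmul_eq_mul, mul_one]
            have : ((Ioc X N).filter fun n => n ∈ U) ⊆ U := fun x hx => (mem_filter.1 hx).2
            exact_mod_cast card_le_card this
  calc ∑ m ∈ Ioc X N, ∑ n ∈ Ioc X N, ‖∫ ω, ee (a * (Real.exp n - Real.exp m) * ξ ω) ∂P‖
      ≤ ∑ m ∈ Ioc X N, (N * ρ ^ K + K * B) := sum_le_sum hinner
    _ = (Ioc X N).card * (N * ρ ^ K + K * B) := by rw [sum_const, nsmul_eq_mul]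
    _ ≤ N * (N * ρ ^ K + K * B) := by
        apply mul_le_mul_of_nonneg_right hcI
        positivity

end Pool.Agent.R739.RD
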