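import Mathlib
import Pool.Agent.R739.RD.Mom

/-!
# Random digits
-/

set_option autoImplicit false

open Finset Filter Topology MeasureTheory ProbabilityTheory
open scoped Real

namespace Pool.Agent.R739.RD

open Pool.Agent.H534R3.UDist

lemma dz_int_mul (h : ℤ) (x : ℝ) : dz (h * x) ≤ |(h : ℝ)| * dz x := by
  have h1 := dz_le_int (h * x) (h * round x)
  refine h1.trans (le_of_eq ?_)
  push_cast
  rw [← mul_sub, abs_mul]
  rfl

/-- decay of the characteristic function from pairs of atoms of the digits -/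
theorem dec_of_atoms {Ω : Type} [MeasurableSpace Ω] (P : Measure Ω) [IsProbabilityMeasure P]
    (b : ℕ) (hb : 2 ≤ b) (D : ℕ → Ω → ℝ) (hD : ∀ j, Measurable (D j)) (hI : iIndepFun D P)
    (ξ : Ω → ℝ)
    (hs : ∀ ω, Tendsto (fun n => ∑ j ∈ range n, D j ω / (b : ℝ) ^ (j + 1)) atTop (𝓝 (ξ ω)))
    (c : ℝ) (hc : 0 < c) (H : ℕ) (hH : 1 ≤ H) (lam : ℝ)
    (hat : ∀ j, ∃ (x l : ℝ) (h : ℤ), l ≠ 0 ∧ (h : ℝ) * l = lam ∧ |(h : ℝ)| ≤ H ∧
      c ≤ P.real {ω | D j ω = x} ∧ c ≤ P.real {ω | D j ω = x + l}) :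
    Dec P ξ b lam (1 - c / (b ^ 2 * H ^ 2)) := by
  intro t S hS
  have hb0 : (0 : ℝ) < b := by
    have : 0 < b := by omega
    exact_mod_cast this
  have hH0 : (0 : ℝ) < H := by exact_mod_cast hH
  have hI' : iIndepFun (fun j ω => D j ω / (b : ℝ) ^ (j + 1)) P :=
    hI.comp (fun j x => x / (b : ℝ) ^ (j + 1)) fun j => measurable_id.div_const _
  have h1 := chi_le P (fun j ω => D j ω / (b : ℝ) ^ (j + 1)) (fun j => (hD j).div_const _) hI' ξ hs
    t S
  refine h1.trans ?_
  rw [← Finset.prod_const]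
  refine Finset.prod_le_prod (fun j _ => norm_nonneg _) fun j hj => ?_
  obtain ⟨x, l, h, hl, hhl, hh, h2, h3⟩ := hat j
  have hmap : ∀ y : ℝ, (P.map (D j)).real {y} = P.real {ω | D j ω = y} := by
    intro y
    rw [map_measureReal_apply (hD j) (measurableSet_singleton y)]
    rfl
  have : IsProbabilityMeasure (P.map (D j)) := Measure.isProbabilityMeasure_map (hD j).aemeasurable
  have h4 := two_atoms (P.map (D j)) x l c (t / (b : ℝ) ^ (j + 1)) hl hc
    (by rw [hmap]; exact h2) (by rw [hmap]; exact h3)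
  have h5 : ∫ ω, ee (t * (D j ω / (b : ℝ) ^ (j + 1))) ∂P =
      ∫ y, ee (t / (b : ℝ) ^ (j + 1) * y) ∂(P.map (D j)) := by
    have hm : AEStronglyMeasurable (fun y : ℝ => ee (t / (b : ℝ) ^ (j + 1) * y)) (P.map (D j)) :=
      (measurable_ee.comp (measurable_id.const_mul _)).aestronglyMeasurable
    rw [integral_map (hD j).aemeasurable hm]
    refine integral_congr_ae (Eventually.of_forall fun ω => ?_)
    show ee _ = ee _
    congr 1
    ring
  rw [h5]
  refine h4.trans ?_
  have h6 := hS j hj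
  have h7 : lam * t / (b : ℝ) ^ (j + 1) = h * (t / (b : ℝ) ^ (j + 1) * l) := by
    rw [← hhl]
    ring
  rw [h7] at h6
  have h8 := h6.trans (dz_int_mul h (t / (b : ℝ) ^ (j + 1) * l))
  have h9 : 1 / (2 * b) ≤ H * dz (t / (b : ℝ) ^ (j + 1) * l) :=
    h8.trans (mul_le_mul_of_nonneg_right hh (dz_nonneg _))
  set d := dz (t / (b : ℝ) ^ (j + 1) * l) with hd
  have hd0 : 0 ≤ d := dz_nonneg _
  have h10 : 1 / (2 * b * H) ≤ d := by
    rw [div_le_iff₀ (by positivity)] at h9 ⊢
    linarith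
  have h11 : (1 / (2 * b * H)) ^ 2 ≤ d ^ 2 := pow_le_pow_left₀ (by positivity) h10 2
  have h12 : c / (b ^ 2 * H ^ 2) = 4 * c * (1 / (2 * b * H)) ^ 2 := by
    field_simp
    norm_num
  rw [h12]
  have h13 : 4 * c * (1 / (2 * b * H)) ^ 2 ≤ 4 * c * d ^ 2 :=
    mul_le_mul_of_nonneg_left h11 (by positivity)
  linarith

lemma rho_lt (c b H : ℝ) (hc : 0 < c) (hb : 0 < b) (hH : 0 < H) : 1 - c / (b ^ 2 * H ^ 2) < 1 := by
  have : 0 < c / (b ^ 2 * H ^ 2) := by positivity
  linarith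

lemma rho_nonneg (c b H : ℝ) (hc0 : 0 < c) (hc : c ≤ 1) (hb : 1 ≤ b) (hH : 1 ≤ H) :
    0 ≤ 1 - c / (b ^ 2 * H ^ 2) := by
  have h1 : c / (b ^ 2 * H ^ 2) ≤ 1 := by
    rw [div_le_one (by positivity)]
    have h2 : 1 ≤ b ^ 2 := one_le_pow₀ hb
    have h3 : 1 ≤ H ^ 2 := one_le_pow₀ hH
    nlinarith
  linarith

/-- a random variable with finitely many values, no value being almost certain, has two atoms -/
lemma atoms {Ω : Type} [MeasurableSpace Ω] (P : Measure Ω) [IsProbabilityMeasure P]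
    {β : Type} [DecidableEq β] [MeasurableSpace β] [MeasurableSingletonClass β]
    (X : Ω → β) (hX : Measurable X) (F : Finset β) (hF : ∀ ω, X ω ∈ F)
    (c : ℝ) (hc0 : 0 < c) (hc : ∀ x, P.real {ω | X ω = x} ≤ 1 - c) :
    ∃ x ∈ F, ∃ y ∈ F, x ≠ y ∧ c / F.card ≤ P.real {ω | X ω = x} ∧
      c / F.card ≤ P.real {ω | X ω = y} := by
  have hsum : ∑ x ∈ F, P.real {ω | X ω = x} = 1 := by
    have h1 : (⋃ x ∈ F, {ω | X ω = x}) = Set.univ := by
      ext ω
      simp only [Set.mem_iUnion, Set.mem_ofPred_eq, Set.mem_univ, iff_true]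
      exact ⟨X ω, hF ω, rfl⟩
    have h2 : P.real (⋃ x ∈ F, {ω | X ω = x}) = ∑ x ∈ F, P.real {ω | X ω = x} := by
      apply measureReal_biUnion_finset
      · intro x _ y _ hxy
        rw [Function.onFun, Set.disjoint_left]
        intro ω h1 h2
        exact hxy (h1.symm.trans h2)
      · intro x _
        exact hX (measurableSet_singleton x)
      · intro x _
        exact measure_ne_top _ _
    rw [← h2, h1]
    simp
  have hne : F.Nonempty := by
    rw [Finset.nonempty_iff_ne_empty]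
    intro h
    rw [h] at hsum
    simp at hsum
  have hcard : (0 : ℝ) < F.card := by exact_mod_cast hne.card_pos
  have hnn : ∀ x, 0 ≤ P.real {ω | X ω = x} := fun x => measureReal_nonneg
  have hc1 : c ≤ 1 := by
    obtain ⟨x, _⟩ := hne
    have := hc x
    have := hnn x
    linarith
  obtain ⟨x, hxF, hx⟩ : ∃ x ∈ F, 1 / F.card ≤ P.real {ω | X ω = x} := by
    by_contra hcon
    push Not at hcon
    have h1 : ∑ x ∈ F, P.real {ω | X ω = x} < ∑ x ∈ F, 1 / (F.card : ℝ) :=
      Finset.sum_lt_sum_of_nonempty hne hcon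
    rw [hsum, sum_const, nsmul_eq_mul, mul_one_div, div_self hcard.ne'] at h1
    exact lt_irrefl _ h1
  have hrest : c ≤ ∑ y ∈ F.erase x, P.real {ω | X ω = y} := by
    have h1 := Finset.add_sum_erase F (fun y => P.real {ω | X ω = y}) hxF
    have h2 := hc x
    linarith
  obtain ⟨y, hyF, hy⟩ : ∃ y ∈ F.erase x, c / F.card ≤ P.real {ω | X ω = y} := by
    by_contra hcon
    push Not at hcon
    have hne2 : (F.erase x).Nonempty := by
      rw [Finset.nonempty_iff_ne_empty]
      intro h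
      rw [h] at hrest
      simp at hrest
      linarith
    have h1 : ∑ y ∈ F.erase x, P.real {ω | X ω = y} < ∑ y ∈ F.erase x, c / (F.card : ℝ) :=
      Finset.sum_lt_sum_of_nonempty hne2 hcon
    rw [sum_const, nsmul_eq_mul] at h1
    have h2 : ((F.erase x).card : ℝ) ≤ F.card := by exact_mod_cast Finset.card_erase_le
    have h3 : ((F.erase x).card : ℝ) * (c / F.card) ≤ F.card * (c / F.card) :=
      mul_le_mul_of_nonneg_right h2 (by positivity)
    have h4 : (F.card : ℝ) * (c / F.card) = c := by field_simp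
    linarith
  refine ⟨x, hxF, y, (Finset.mem_erase.1 hyF).2, (Finset.mem_erase.1 hyF).1.symm, ?_, hy⟩
  refine le_trans ?_ hx
  exact div_le_div_of_nonneg_right hc1 hcard.le

/-- random integer digits -/
theorem dec_int {Ω : Type} [MeasurableSpace Ω] (P : Measure Ω) [IsProbabilityMeasure P]
    (b : ℕ) (hb : 2 ≤ b) (M : ℕ) (c : ℝ) (hc : 0 < c) (D : ℕ → Ω → ℤ) (hD : ∀ j, Measurable (D j))
    (hI : iIndepFun D P) (hM : ∀ j ω, |D j ω| ≤ M) (hcD : ∀ j d, P.real {ω | D j ω = d} ≤ 1 - c)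
    (ξ : Ω → ℝ)
    (hs : ∀ ω, Tendsto (fun n => ∑ j ∈ range n, (D j ω : ℝ) / (b : ℝ) ^ (j + 1)) atTop
      (𝓝 (ξ ω))) :
    ∃ lam ρ : ℝ, lam ≠ 0 ∧ 0 ≤ ρ ∧ ρ < 1 ∧ Dec P ξ b lam ρ := by
  have hb0 : (0 : ℝ) < b := by
    have : 0 < b := by omega
    exact_mod_cast this
  have hb1 : (1 : ℝ) ≤ b := by
    have : 1 ≤ b := by omega
    exact_mod_cast this
  set F : Finset ℤ := Icc (-(M : ℤ)) M with hF
  have hFm : ∀ j ω, D j ω ∈ F := fun j ω => by
    rw [hF, mem_Icc]
    exact abs_le.1 (hM j ω)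
  have hFne : F.Nonempty := ⟨0, by rw [hF, mem_Icc]; constructor <;> omega⟩
  have hFc : (0 : ℝ) < F.card := by exact_mod_cast hFne.card_pos
  have hFc1 : (1 : ℝ) ≤ F.card := by exact_mod_cast hFne.card_pos
  have hc1 : c ≤ 1 := by
    have h1 := hcD 0 0
    have h2 : 0 ≤ P.real {ω | D 0 ω = 0} := measureReal_nonneg
    linarith
  set H : ℕ := (2 * M).factorial with hH
  have hH1 : 1 ≤ H := Nat.factorial_pos _
  have hH1' : (1 : ℝ) ≤ H := by exact_mod_cast hH1
  refine ⟨H, 1 - (c / F.card) / (b ^ 2 * H ^ 2), by positivity, ?_, ?_, ?_⟩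
  · apply rho_nonneg _ _ _ (by positivity) _ hb1 hH1'
    exact (div_le_self hc.le hFc1).trans hc1
  · exact rho_lt _ _ _ (by positivity) hb0 (by linarith)
  · refine dec_of_atoms P b hb (fun j ω => (D j ω : ℝ))
      (fun j => (measurable_from_top (f := fun n : ℤ => (n : ℝ))).comp (hD j))
      (hI.comp (fun _ n => (n : ℝ)) fun _ => measurable_from_top) ξ hs (c / F.card)
      (by positivity) H hH1 H fun j => ?_
    obtain ⟨x, hx, y, hy, hxy, h1, h2⟩ := atoms P (D j) (hD j) F (hFm j) c hc (hcD j)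
    rw [hF, mem_Icc] at hx hy
    have hl : y - x ≠ 0 := sub_ne_zero.2 hxy.symm
    have hdvd : (y - x) ∣ (H : ℤ) := by
      rw [← Int.natAbs_dvd_natAbs]
      rw [Int.natAbs_natCast, hH]
      apply Nat.dvd_factorial
      · exact Int.natAbs_pos.2 hl
      · omega
    obtain ⟨h, hh⟩ := hdvd
    have hHi : (1 : ℤ) ≤ H := by exact_mod_cast hH1
    refine ⟨x, ((y - x : ℤ) : ℝ), h, by exact_mod_cast hl, ?_, ?_, ?_, ?_⟩
    · rw [mul_comm]
      exact_mod_cast hh.symm
    · have h3 : |h| ≤ H := by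
        have h4 : h ∣ (H : ℤ) := ⟨y - x, by rw [hh]; ring⟩
        have := Int.le_of_dvd (by omega) ((abs_dvd h (H : ℤ)).2 h4)
        exact this
      have : ((|h| : ℤ) : ℝ) ≤ ((H : ℤ) : ℝ) := by exact_mod_cast h3
      push_cast at this
      exact this
    · refine h1.trans (le_of_eq ?_)
      congr 1
      ext ω
      simp
    · refine h2.trans (le_of_eq ?_)
      congr 1
      ext ω
      simp only [Set.mem_ofPred_eq]
      constructor
      · intro h; rw [h]; push_cast; ring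
      · intro h
        have h3 : (D j ω : ℝ) = (y : ℝ) := by rw [h]; push_cast; ring
        exact_mod_cast h3

/-- identically distributed real digits with finitely many values -/
theorem dec_real {Ω : Type} [MeasurableSpace Ω] (P : Measure Ω) [IsProbabilityMeasure P]
    (b : ℕ) (hb : 2 ≤ b) (F : Finset ℝ) (D : ℕ → Ω → ℝ) (hD : ∀ j, Measurable (D j))
    (hI : iIndepFun D P) (hid : ∀ j, IdentDistrib (D j) (D 0) P P) (hF : ∀ j ω, D j ω ∈ F)
    (hne : ∀ d, P.real {ω | D 0 ω = d} < 1)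
    (ξ : Ω → ℝ)
    (hs : ∀ ω, Tendsto (fun n => ∑ j ∈ range n, D j ω / (b : ℝ) ^ (j + 1)) atTop
      (𝓝 (ξ ω))) :
    ∃ lam ρ : ℝ, lam ≠ 0 ∧ 0 ≤ ρ ∧ ρ < 1 ∧ Dec P ξ b lam ρ := by
  classical
  have hb0 : (0 : ℝ) < b := by
    have : 0 < b := by omega
    exact_mod_cast this
  have hb1 : (1 : ℝ) ≤ b := by
    have : 1 ≤ b := by omega
    exact_mod_cast this
  obtain ⟨ω0⟩ : Nonempty Ω := by
    by_contra h
    rw [not_nonempty_iff] at h
    have h1 : P Set.univ = 1 := measure_univ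
    have h2 : (Set.univ : Set Ω) = ∅ := Set.eq_empty_of_isEmpty _
    rw [h2, measure_empty] at h1
    exact zero_ne_one h1
  have hFne : F.Nonempty := ⟨_, hF 0 ω0⟩
  have hFc : (0 : ℝ) < F.card := by exact_mod_cast hFne.card_pos
  have hFc1 : (1 : ℝ) ≤ F.card := by exact_mod_cast hFne.card_pos
  obtain ⟨y0, hy0, hmax⟩ := F.exists_max_image (fun x => P.real {ω | D 0 ω = x}) hFne
  set c : ℝ := 1 - P.real {ω | D 0 ω = y0} with hc
  have hc0 : 0 < c := by
    have := hne y0
    linarith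
  have hcD : ∀ d, P.real {ω | D 0 ω = d} ≤ 1 - c := by
    intro d
    by_cases hd : d ∈ F
    · have := hmax d hd
      linarith
    · have : {ω | D 0 ω = d} = ∅ := by
        ext ω
        simp only [Set.mem_ofPred_eq, Set.mem_empty_iff_false, iff_false]
        intro h
        exact hd (h ▸ hF 0 ω)
      rw [this]
      have h0 : 0 ≤ P.real {ω | D 0 ω = y0} := measureReal_nonneg
      simp only [measureReal_empty]
      linarith
  have hc1 : c ≤ 1 := by
    have h0 : 0 ≤ P.real {ω | D 0 ω = y0} := measureReal_nonneg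
    linarith
  obtain ⟨x, hx, y, hy, hxy, h1, h2⟩ := atoms P (D 0) (hD 0) F (hF 0) c hc0 hcD
  refine ⟨y - x, 1 - (c / F.card) / (b ^ 2 * ((1 : ℕ) : ℝ) ^ 2), sub_ne_zero.2 hxy.symm, ?_, ?_, ?_⟩
  · apply rho_nonneg _ _ _ (by positivity) _ hb1 (by norm_num)
    exact (div_le_self hc0.le hFc1).trans hc1
  · exact rho_lt _ _ _ (by positivity) hb0 (by norm_num)
  · refine dec_of_atoms P b hb D hD hI ξ hs (c / F.card) (by positivity) 1 le_rfl (y - x)
      fun j => ⟨x, y - x, 1, sub_ne_zero.2 hxy.symm, by simp, by simp, ?_, ?_⟩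
    · have h3 := (hid j).measure_mem_eq (measurableSet_singleton x)
      have h4 : P.real {ω | D j ω = x} = P.real {ω | D 0 ω = x} := by
        simp only [Measure.real]
        congr 1
      rw [h4]
      exact h1
    · have e : x + (y - x) = y := by ring
      rw [e]
      have h3 := (hid j).measure_mem_eq (measurableSet_singleton y)
      have h4 : P.real {ω | D j ω = y} = P.real {ω | D 0 ω = y} := by
        simp only [Measure.real]
        congr 1
      rw [h4]
      exact h2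

end Pool.Agent.R739.RD
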