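import Mathlib
import Pool.Agent.R739.RD.Mom

/-!
# Almost sure convergence of the Weyl averages
-/

set_option autoImplicit false

open Finset Filter Topology MeasureTheory
open scoped Real

namespace Pool.Agent.R739.RD

open Pool.Agent.H534R3.UDist

/-- squares with summable integrals tend to zero almost everywhere -/
lemma ae_tendsto_zero {α : Type} [MeasurableSpace α] {μ : Measure α} (f : ℕ → α → ℝ)
    (hm : ∀ k, Measurable (f k)) (hi : ∀ k, Integrable (fun x => (f k x) ^ 2) μ)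
    (hs : Summable fun k => ∫ x, (f k x) ^ 2 ∂μ) :
    ∀ᵐ x ∂μ, Tendsto (fun k => f k x) atTop (𝓝 0) := by
  have h1 : ∫⁻ x, ∑' k, ENNReal.ofReal ((f k x) ^ 2) ∂μ =
      ∑' k, ∫⁻ x, ENNReal.ofReal ((f k x) ^ 2) ∂μ :=
    lintegral_tsum fun k => ((hm k).pow_const 2).ennreal_ofReal.aemeasurable
  have h2 : ∀ k, ∫⁻ x, ENNReal.ofReal ((f k x) ^ 2) ∂μ = ENNReal.ofReal (∫ x, (f k x) ^ 2 ∂μ) :=
    fun k => (ofReal_integral_eq_lintegral_ofReal (hi k)
      (Eventually.of_forall fun x => sq_nonneg _)).symm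
  simp only [h2] at h1
  have h3 : ∑' k, ENNReal.ofReal (∫ x, (f k x) ^ 2 ∂μ) ≠ ⊤ := by
    rw [← ENNReal.ofReal_tsum_of_nonneg (fun k => integral_nonneg fun x => sq_nonneg _) hs]
    exact ENNReal.ofReal_ne_top
  have h4 : ∀ᵐ x ∂μ, ∑' k, ENNReal.ofReal ((f k x) ^ 2) < ⊤ := by
    refine ae_lt_top (Measurable.tsum fun k => ((hm k).pow_const 2).ennreal_ofReal) ?_
    rw [h1]; exact h3
  filter_upwards [h4] with x hx
  have h5 := ENNReal.tendsto_atTop_zero_of_tsum_ne_top hx.ne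
  have h6 : Tendsto (fun k => (f k x) ^ 2) atTop (𝓝 0) := by
    have h7 := (ENNReal.tendsto_toReal ENNReal.zero_ne_top).comp h5
    simp only [ENNReal.toReal_zero] at h7
    refine h7.congr fun k => ?_
    simp only [Function.comp]
    exact ENNReal.toReal_ofReal (sq_nonneg _)
  have h8 : Tendsto (fun k => √((f k x) ^ 2)) atTop (𝓝 (√0)) :=
    (Real.continuous_sqrt.tendsto 0).comp h6
  rw [Real.sqrt_zero] at h8
  have h9 : Tendsto (fun k => |f k x|) atTop (𝓝 0) := h8.congr fun k => Real.sqrt_sq_eq_abs _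
  exact (tendsto_zero_iff_abs_tendsto_zero _).mpr h9

/-- the sampling points -/
noncomputable def NN (q i : ℕ) : ℕ := ⌊Real.exp ((i : ℝ) / q)⌋₊

lemma one_le_NN (q i : ℕ) : 1 ≤ NN q i := by
  unfold NN
  refine Nat.le_floor ?_
  rw [Nat.cast_one]
  exact Real.one_le_exp (by positivity)

lemma NN_le (q i : ℕ) : (NN q i : ℝ) ≤ Real.exp ((i : ℝ) / q) := Nat.floor_le (Real.exp_pos _).le

lemma lt_NN (q i : ℕ) : Real.exp ((i : ℝ) / q) < NN q i + 1 := Nat.lt_floor_add_one _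

lemma log_NN_ge (q i : ℕ) : (i : ℝ) / q - 1 ≤ Real.log (NN q i) := by
  have h0 : (0 : ℝ) < NN q i := by exact_mod_cast one_le_NN q i
  rw [Real.le_log_iff_exp_le h0]
  have h1 := lt_NN q i
  have h2 : (1 : ℝ) ≤ NN q i := by exact_mod_cast one_le_NN q i
  rw [Real.exp_sub, div_le_iff₀ (Real.exp_pos 1)]
  have h4 : (2 : ℝ) ≤ Real.exp 1 := by linarith [Real.add_one_le_exp (1 : ℝ)]
  nlinarith

/-- the number of windows -/
def KK (i : ℕ) : ℕ := Nat.sqrt (Nat.sqrt i) + 1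

lemma KK_pow (i : ℕ) : i ≤ KK i ^ 4 := by
  have h1 := Nat.lt_succ_sqrt (Nat.sqrt i)
  have h2 := Nat.lt_succ_sqrt i
  have h3 : Nat.sqrt i + 1 ≤ KK i * KK i := h1
  have h4 : i < (Nat.sqrt i + 1) * (Nat.sqrt i + 1) := h2
  have h5 := Nat.mul_le_mul h3 h3
  have e : KK i ^ 4 = KK i * KK i * (KK i * KK i) := by ring
  omega

lemma KK_ge (i : ℕ) : (KK i - 1) ^ 4 ≤ i := by
  have h1 : Nat.sqrt (Nat.sqrt i) * Nat.sqrt (Nat.sqrt i) ≤ Nat.sqrt i := Nat.sqrt_le _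
  have h2 : Nat.sqrt i * Nat.sqrt i ≤ i := Nat.sqrt_le _
  have h5 := Nat.mul_le_mul h1 h1
  have e : (KK i - 1) ^ 4 = Nat.sqrt (Nat.sqrt i) * Nat.sqrt (Nat.sqrt i) *
    (Nat.sqrt (Nat.sqrt i) * Nat.sqrt (Nat.sqrt i)) := by
    unfold KK
    rw [Nat.add_sub_cancel]
    ring
  omega

lemma KK_two (i : ℕ) (hi : 1 ≤ i) : 2 ≤ KK i := by
  unfold KK
  have h1 : 1 ≤ Nat.sqrt i := Nat.sqrt_pos.2 hi
  have h2 : 1 ≤ Nat.sqrt (Nat.sqrt i) := Nat.sqrt_pos.2 h1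
  omega

lemma KK_four (i : ℕ) (hi : 1 ≤ i) : (KK i : ℝ) ^ 4 ≤ 16 * i := by
  have h1 := KK_two i hi
  have h2 := KK_ge i
  have h3 : KK i ≤ 2 * (KK i - 1) := by omega
  have h4 : KK i ^ 4 ≤ (2 * (KK i - 1)) ^ 4 := Nat.pow_le_pow_left h3 4
  have h5 : KK i ^ 4 ≤ 16 * i := by
    calc KK i ^ 4 ≤ (2 * (KK i - 1)) ^ 4 := h4
      _ = 16 * (KK i - 1) ^ 4 := by ring
      _ ≤ 16 * i := by omega
  exact_mod_cast h5

lemma geom_bound (r : ℝ) (h0 : 0 ≤ r) (h1 : r < 1) :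
    ∃ C : ℝ, 0 < C ∧ ∀ K : ℕ, (K : ℝ) ^ 10 * r ^ K ≤ C := by
  have h := tendsto_pow_const_mul_const_pow_of_lt_one 10 h0 h1
  obtain ⟨C, hC⟩ := h.bddAbove_range
  refine ⟨max C 1, by positivity, fun K => ?_⟩
  exact (hC ⟨K, rfl⟩).trans (le_max_left _ _)

/-- eventually the sampling points are large -/
lemma NN_large (q : ℕ) (hq : 1 ≤ q) (C : ℝ) : ∀ᶠ i : ℕ in atTop, C * KK i + C ≤ NN q i := by
  have hq0 : (0 : ℝ) < q := by exact_mod_cast hq
  have h1 : Tendsto (fun x : ℝ => x ^ 1 * Real.exp (-x)) atTop (𝓝 0) :=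
    Real.tendsto_pow_mul_exp_neg_atTop_nhds_zero 1
  have h2 : Tendsto (fun i : ℕ => (i : ℝ) / q) atTop atTop :=
    tendsto_natCast_atTop_atTop.atTop_div_const hq0
  have h3 := h1.comp h2
  have hc : (0 : ℝ) < 1 / (q * (4 * (|C| + 1))) := by positivity
  filter_upwards [h3.eventually (gt_mem_nhds hc), eventually_ge_atTop 1,
    h2.eventually (eventually_ge_atTop (Real.log (2 * (2 * |C| + 2)) + 1))] with i hi hi1 hi2
  have hK : (KK i : ℝ) ≤ i + 1 := by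
    have : KK i ≤ i + 1 := by
      unfold KK
      have := Nat.sqrt_le_self i
      have := Nat.sqrt_le_self (Nat.sqrt i)
      omega
    exact_mod_cast this
  simp only [Function.comp, pow_one] at hi
  rw [Real.exp_neg, lt_div_iff₀ (by positivity)] at hi
  have hE := Real.exp_pos ((i : ℝ) / q)
  have h4 : (i : ℝ) * (4 * (|C| + 1)) < Real.exp ((i : ℝ) / q) := by
    have e1 : (i : ℝ) / q * (Real.exp ((i : ℝ) / q))⁻¹ * (q * (4 * (|C| + 1))) =
      i * (4 * (|C| + 1)) / Real.exp ((i : ℝ) / q) := by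
      field_simp
    rw [e1, div_lt_one hE] at hi
    exact hi
  have h5 := lt_NN q i
  have hi1' : (1 : ℝ) ≤ i := by exact_mod_cast hi1
  have hC0 : 0 ≤ |C| := abs_nonneg C
  have hC1 : C ≤ |C| := le_abs_self C
  have hN1 : (1 : ℝ) ≤ NN q i := by exact_mod_cast one_le_NN q i
  have h6 : C * KK i + C ≤ |C| * (i + 1) + |C| := by
    have : C * KK i ≤ |C| * KK i := mul_le_mul_of_nonneg_right hC1 (Nat.cast_nonneg _)
    have h7 : |C| * KK i ≤ |C| * (i + 1) := mul_le_mul_of_nonneg_left hK hC0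
    linarith
  nlinarith

end Pool.Agent.R739.RD
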