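import Mathlib
import Pool.Agent.R739.RD.AE

/-!
# Almost sure convergence along the sampling points
-/

set_option autoImplicit false

open Finset Filter Topology MeasureTheory
open scoped Real

namespace Pool.Agent.R739.RD

open Pool.Agent.H534R3.UDist

lemma aux_one (b q K : ℝ) (hb : 2 ≤ b) (hq : 1 ≤ q) (hK : 2 ≤ K) : 1 ≤ 3 * b * q * K := by
  have h1 : 1 ≤ b * q := by nlinarith
  nlinarith

lemma aux_two (x l s : ℝ) (hx : 0 ≤ x) (h : 2 * x ≤ l) (hs : 1 / 2 ≤ s) : x ≤ s * l := by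
  nlinarith

lemma aux_three (q b K N : ℝ) (hi : (3 * q * b + 3 * q) * K + (3 * q * b + 3 * q) ≤ N)
    (h6 : 0 ≤ 3 * q * K + 3 * q * b) : 3 * q * (K * b + 1) ≤ N := by
  nlinarith

lemma aux_four (x i q : ℝ) (h : x ≤ 16 * i) (hq : 0 < q) : x * (2 * q) ≤ i * (32 * q) := by
  nlinarith

/-- the second moments at the sampling points -/
theorem mom_NN {Ω : Type} [MeasurableSpace Ω] (P : Measure Ω)
    [IsProbabilityMeasure P] (ξ : Ω → ℝ) (hξ : Measurable ξ) (b : ℕ) (lam ρ : ℝ) (hb : 2 ≤ b)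
    (hlam : lam ≠ 0) (hρ0 : 0 ≤ ρ) (hρ1 : ρ < 1) (hD : Dec P ξ b lam ρ)
    (z : ℕ → ℂ) (hz : ∀ n, ‖z n‖ ≤ 1) (a : ℝ) (ha : a ≠ 0) (q : ℕ) (hq : 1 ≤ q) :
    ∃ C : ℝ, 0 < C ∧ ∀ᶠ i : ℕ in atTop,
      ∫ ω, (‖TT z a (NN q i / q) (NN q i) (ξ ω)‖ / NN q i) ^ 2 ∂P ≤ C * (1 / (i : ℝ) ^ 2) := by
  obtain ⟨A, hA, hmom⟩ := moment
  have hq0 : (0 : ℝ) < q := by exact_mod_cast hq
  have hq1 : (1 : ℝ) ≤ q := by exact_mod_cast hq
  have hb0 : (0 : ℝ) < b := by
    have : 0 < b := by omega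
    exact_mod_cast this
  have hb2 : (2 : ℝ) ≤ b := by exact_mod_cast hb
  set C1 : ℝ := |Real.log (|lam * a|)| + 1 with hC1
  have hC10 : 0 < C1 := by positivity
  set c : ℝ := 1 / (368640 * b ^ 2 * q ^ 3) with hc
  have hc0 : 0 < c := by positivity
  set r : ℝ := max ρ (Real.exp (-c)) with hr
  have hr0 : 0 ≤ r := le_max_of_le_left hρ0
  have hrρ : ρ ≤ r := le_max_left _ _
  have hrc : Real.exp (-c) ≤ r := le_max_right _ _
  have hr1 : r < 1 := max_lt hρ1 (by rw [Real.exp_lt_one_iff]; linarith)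
  obtain ⟨C2, hC2, hgeo⟩ := geom_bound r hr0 hr1
  set C3 : ℝ := 1 + 3 * b * q * A * (1 + C1) with hC3
  have hC30 : 0 < C3 := by positivity
  refine ⟨C3 * C2, by positivity, ?_⟩
  filter_upwards [NN_large q hq (3 * q * b + 3 * q), eventually_ge_atTop (2 * q),
    eventually_ge_atTop 1] with i hi hi2 hi1
  set N : ℕ := NN q i with hN
  set K : ℕ := KK i with hK
  have hN1 : 1 ≤ N := one_le_NN q i
  have hN1' : (1 : ℝ) ≤ N := by exact_mod_cast hN1
  have hN0 : (0 : ℝ) < N := by linarith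
  have hK2 : 2 ≤ K := KK_two i hi1
  have hKfour : (K : ℝ) ^ 4 ≤ 16 * i := KK_four i hi1
  have hKpow : i ≤ K ^ 4 := KK_pow i
  have hlogNN : (i : ℝ) / q - 1 ≤ Real.log N := log_NN_ge q i
  clear_value N K r C3 C1 c
  have hK2' : (2 : ℝ) ≤ K := by exact_mod_cast hK2
  have hK0 : (0 : ℝ) < K := by linarith
  have hi1' : (1 : ℝ) ≤ i := by exact_mod_cast hi1
  have hi2' : 2 * (q : ℝ) ≤ i := by exact_mod_cast hi2
  obtain ⟨δ, hδ⟩ : ∃ δ : ℝ, δ = 1 / (3 * b * q * K) := ⟨_, rfl⟩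
  have hδ0 : 0 < δ := by
    rw [hδ]
    positivity
  have hδ1 : δ ≤ 1 := by
    rw [hδ, div_le_one (by positivity)]
    exact aux_one b q K hb2 hq1 hK2'
  obtain ⟨l, hl⟩ : ∃ l : ℕ, l = ⌈2 * δ * N⌉₊ := ⟨_, rfl⟩
  have hl1 : 1 ≤ l := by
    rw [hl]
    exact Nat.one_le_ceil_iff.2 (by positivity)
  have hl2 : 2 * δ * N ≤ l := by
    rw [hl]
    exact Nat.le_ceil _
  have hl3 : (l : ℝ) < 2 * δ * N + 1 := by
    rw [hl]
    exact Nat.ceil_lt_add_one (by positivity)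
  have hbl : Real.exp (δ * N) ≤ (b : ℝ) ^ l := by
    have h1 : (2 : ℝ) ^ l ≤ (b : ℝ) ^ l := pow_le_pow_left₀ (by norm_num) hb2 l
    refine le_trans ?_ h1
    have h2 : (2 : ℝ) ^ l = Real.exp (Real.log 2 * l) := by
      rw [Real.exp_mul, Real.exp_log (by norm_num), Real.rpow_natCast]
    rw [h2]
    apply Real.exp_le_exp.2
    have h3 : (1 : ℝ) / 2 ≤ Real.log 2 := by
      have := Real.log_two_gt_d9
      linarith
    have h4 : 0 ≤ δ * N := by positivity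
    exact aux_two _ _ _ h4 (by linarith) h3
  have hX : (N : ℝ) / q - 1 ≤ ((N / q : ℕ) : ℝ) := by
    have h1 : N < q * (N / q + 1) := Nat.lt_mul_div_succ N (by omega)
    have h2 : (N : ℝ) < q * ((N / q : ℕ) + 1) := by exact_mod_cast h1
    rw [sub_le_iff_le_add, div_le_iff₀ hq0, mul_comm]
    exact h2.le
  have hKl : K * l * Real.log b ≤ ((N / q : ℕ) : ℝ) := by
    refine le_trans ?_ hX
    have hlog : Real.log b ≤ b := by
      have := Real.log_le_sub_one_of_pos hb0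
      linarith
    have h1 : (K : ℝ) * l * Real.log b ≤ K * l * b :=
      mul_le_mul_of_nonneg_left hlog (by positivity)
    have h2 : (K : ℝ) * l * b ≤ K * (2 * δ * N + 1) * b := by
      apply mul_le_mul_of_nonneg_right _ hb0.le
      exact mul_le_mul_of_nonneg_left hl3.le hK0.le
    have h3 : K * (2 * δ * N + 1) * b = (2 / 3) * (N / q) + K * b := by
      rw [hδ]
      field_simp
    have h4 : K * b + 1 ≤ (1 / 3) * (N / q : ℝ) := by
      have h5 : 3 * q * (K * b + 1) ≤ (N : ℝ) := by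
        have h6 : 0 ≤ 3 * (q : ℝ) * K + 3 * q * b := by positivity
        exact aux_three _ _ _ _ hi h6
      have e2 : (1 / 3) * (N / q : ℝ) = N / (3 * q) := by field_simp
      rw [e2, le_div_iff₀ (by positivity)]
      linarith
    linarith
  have hm := hmom P ξ hξ b lam ρ hb hlam hρ0 hD z hz a ha δ hδ0 hδ1 (N / q) N K l hN1 hl1 hbl hKl
  rw [← hC1] at hm
  have hlogN : (K : ℝ) ^ 4 / (32 * q) ≤ Real.log N := by
    have h1 := hlogNN
    have h2 := hKfour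
    have h3 : (i : ℝ) / (2 * q) ≤ i / q - 1 := by
      have e1 : (i : ℝ) / q = 2 * (i / (2 * q)) := by field_simp
      have e2 : 1 ≤ (i : ℝ) / (2 * q) := by
        rw [le_div_iff₀ (by positivity)]
        linarith
      linarith
    have h4 : (K : ℝ) ^ 4 / (32 * q) ≤ i / (2 * q) := by
      rw [div_le_div_iff₀ (by positivity) (by positivity)]
      exact aux_four _ _ _ h2 hq0
    linarith
  have hK1' : (1 : ℝ) ≤ K := by linarith
  have hK4 : (K : ℝ) ≤ (K : ℝ) ^ 2 := le_self_pow₀ hK1' (by norm_num)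
  have hK5 : (K : ℝ) ≤ (K : ℝ) ^ 4 := le_self_pow₀ hK1' (by norm_num)
  -- the first exponential
  have hx1 : (N : ℝ) ^ (-(δ ^ 2 / 1280)) ≤ r ^ K := by
    have e1 : (N : ℝ) ^ (-(δ ^ 2 / 1280)) = Real.exp (Real.log N * (-(δ ^ 2 / 1280))) :=
      Real.rpow_def_of_pos hN0 _
    have e2 : Real.exp (-c) ^ K = Real.exp (K * (-c)) := (Real.exp_nat_mul _ _).symm
    have h1 : Real.exp (-c) ^ K ≤ r ^ K := pow_le_pow_left₀ (Real.exp_pos _).le hrc K
    refine le_trans ?_ h1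
    rw [e1, e2]
    apply Real.exp_le_exp.2
    have h2 : K * c ≤ Real.log N * (δ ^ 2 / 1280) := by
      calc K * c ≤ (K : ℝ) ^ 2 * c := mul_le_mul_of_nonneg_right hK4 hc0.le
        _ = (K : ℝ) ^ 4 / (32 * q) * (δ ^ 2 / 1280) := by
            rw [hc, hδ]
            field_simp
            norm_num
        _ ≤ _ := mul_le_mul_of_nonneg_right hlogN (by positivity)
    linarith
  have hx2 : 1 / (N : ℝ) ≤ r ^ K := by
    have e1 : 1 / (N : ℝ) = Real.exp (-Real.log N) := by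
      rw [Real.exp_neg, Real.exp_log hN0, one_div]
    have e2 : Real.exp (-c) ^ K = Real.exp (K * (-c)) := (Real.exp_nat_mul _ _).symm
    have h1 : Real.exp (-c) ^ K ≤ r ^ K := pow_le_pow_left₀ (Real.exp_pos _).le hrc K
    refine le_trans ?_ h1
    rw [e1, e2]
    apply Real.exp_le_exp.2
    have h2 : K * c ≤ Real.log N := by
      refine le_trans ?_ hlogN
      have h3 : c ≤ 1 / (32 * q) := by
        rw [hc]
        apply one_div_le_one_div_of_le (by positivity)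
        have h4 : (1 : ℝ) ≤ b ^ 2 := one_le_pow₀ (by linarith)
        have h5 : (q : ℝ) ≤ q ^ 3 := le_self_pow₀ hq1 (by norm_num)
        have h6 : (q : ℝ) ^ 3 ≤ b ^ 2 * q ^ 3 := le_mul_of_one_le_left (by positivity) h4
        linarith
      calc K * c ≤ K * (1 / (32 * q)) := mul_le_mul_of_nonneg_left h3 hK0.le
        _ ≤ (K : ℝ) ^ 4 * (1 / (32 * q)) := mul_le_mul_of_nonneg_right hK5 (by positivity)
        _ = _ := by ring
    linarith
  have hx3 : ρ ^ K ≤ r ^ K := pow_le_pow_left₀ hρ0 hrρ K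
  have hrK : 0 ≤ r ^ K := pow_nonneg hr0 K
  -- the normalised second moment
  have e0 : ∫ ω, (‖TT z a (N / q) N (ξ ω)‖ / N) ^ 2 ∂P =
      (∫ ω, ‖TT z a (N / q) N (ξ ω)‖ ^ 2 ∂P) / N ^ 2 := by
    simp only [div_pow]
    rw [integral_div]
  rw [e0, div_le_iff₀ (by positivity)]
  refine hm.trans ?_
  have hpow : (N : ℝ) ^ (1 - δ ^ 2 / 1280) = N * (N : ℝ) ^ (-(δ ^ 2 / 1280)) := by
    rw [sub_eq_add_neg, Real.rpow_add hN0, Real.rpow_one]
  have h1 : (N : ℝ) ^ (1 - δ ^ 2 / 1280) ≤ N * r ^ K := by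
    rw [hpow]
    exact mul_le_mul_of_nonneg_left hx1 hN0.le
  have h2 : C1 ≤ C1 * (N * r ^ K) := by
    have : 1 ≤ N * r ^ K := by
      rw [div_le_iff₀ hN0] at hx2
      linarith
    exact le_mul_of_one_le_right hC10.le this
  have h3 : K * (A / δ * ((N : ℝ) ^ (1 - δ ^ 2 / 1280) + C1)) ≤
      3 * b * q * A * (1 + C1) * K ^ 2 * (N * r ^ K) := by
    have e1 : A / δ = 3 * b * q * A * K := by
      rw [hδ]
      field_simp
    rw [e1]
    have h4 : (N : ℝ) ^ (1 - δ ^ 2 / 1280) + C1 ≤ (1 + C1) * (N * r ^ K) := by linarith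
    calc K * (3 * b * q * A * K * ((N : ℝ) ^ (1 - δ ^ 2 / 1280) + C1))
        ≤ K * (3 * b * q * A * K * ((1 + C1) * (N * r ^ K))) := by
          apply mul_le_mul_of_nonneg_left _ hK0.le
          apply mul_le_mul_of_nonneg_left h4
          positivity
      _ = _ := by ring
  have h5 : N * ρ ^ K ≤ K ^ 2 * (N * r ^ K) := by
    have h6 : N * ρ ^ K ≤ N * r ^ K := mul_le_mul_of_nonneg_left hx3 hN0.le
    have h7 : 0 ≤ N * r ^ K := by positivity
    have h8 : (1 : ℝ) ≤ K ^ 2 := one_le_pow₀ hK1'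
    exact h6.trans (le_mul_of_one_le_left h7 h8)
  have h6 : N * ρ ^ K + K * (A / δ * ((N : ℝ) ^ (1 - δ ^ 2 / 1280) + C1)) ≤
      C3 * (K ^ 2 * r ^ K) * N := by
    calc _ ≤ K ^ 2 * (N * r ^ K) + 3 * b * q * A * (1 + C1) * K ^ 2 * (N * r ^ K) :=
          add_le_add h5 h3
      _ = _ := by rw [hC3]; ring
  have h7 : (K : ℝ) ^ 2 * r ^ K ≤ C2 * (1 / (i : ℝ) ^ 2) := by
    have h8 := hgeo K
    have h9 : (i : ℝ) ≤ (K : ℝ) ^ 4 := by exact_mod_cast hKpow
    have h10 : (i : ℝ) ^ 2 ≤ (K : ℝ) ^ 8 := by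
      have := pow_le_pow_left₀ (by positivity) h9 2
      calc _ ≤ ((K : ℝ) ^ 4) ^ 2 := this
        _ = _ := by ring
    have h11 : (i : ℝ) ^ 2 * ((K : ℝ) ^ 2 * r ^ K) ≤ C2 := by
      refine le_trans ?_ h8
      calc (i : ℝ) ^ 2 * ((K : ℝ) ^ 2 * r ^ K) ≤ (K : ℝ) ^ 8 * ((K : ℝ) ^ 2 * r ^ K) :=
            mul_le_mul_of_nonneg_right h10 (by positivity)
        _ = _ := by ring
    rw [mul_one_div, le_div_iff₀ (by positivity)]
    linarith
  calc N * (N * ρ ^ K + K * (A / δ * ((N : ℝ) ^ (1 - δ ^ 2 / 1280) + C1)))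
      ≤ N * (C3 * (K ^ 2 * r ^ K) * N) := mul_le_mul_of_nonneg_left h6 hN0.le
    _ = C3 * (K ^ 2 * r ^ K) * N ^ 2 := by ring
    _ ≤ C3 * (C2 * (1 / (i : ℝ) ^ 2)) * N ^ 2 := by
        apply mul_le_mul_of_nonneg_right _ (by positivity)
        exact mul_le_mul_of_nonneg_left h7 hC30.le
    _ = _ := by ring

theorem ae_NN {Ω : Type} [MeasurableSpace Ω] (P : Measure Ω)
    [IsProbabilityMeasure P] (ξ : Ω → ℝ) (hξ : Measurable ξ) (b : ℕ) (lam ρ : ℝ) (hb : 2 ≤ b)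
    (hlam : lam ≠ 0) (hρ0 : 0 ≤ ρ) (hρ1 : ρ < 1) (hD : Dec P ξ b lam ρ)
    (z : ℕ → ℂ) (hz : ∀ n, ‖z n‖ ≤ 1) (a : ℝ) (ha : a ≠ 0) (q : ℕ) (hq : 1 ≤ q) :
    ∀ᵐ ω ∂P, Tendsto (fun i : ℕ => ‖TT z a (NN q i / q) (NN q i) (ξ ω)‖ / NN q i) atTop (𝓝 0) := by
  obtain ⟨C, hC, hev⟩ := mom_NN P ξ hξ b lam ρ hb hlam hρ0 hρ1 hD z hz a ha q hq
  rw [eventually_atTop] at hev
  obtain ⟨i0, hi0⟩ := hev
  have hmeas : ∀ i : ℕ, Measurable fun ω =>
      ‖TT z a (NN q i / q) (NN q i) (ξ ω)‖ / (NN q i : ℝ) := fun i =>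
    (((measurable_TT z a _ _).comp hξ).norm).div_const _
  have key : ∀ᵐ ω ∂P, Tendsto (fun i : ℕ =>
      ‖TT z a (NN q (i + i0) / q) (NN q (i + i0)) (ξ ω)‖ / NN q (i + i0)) atTop (𝓝 0) := by
    refine ae_tendsto_zero (fun i ω =>
      ‖TT z a (NN q (i + i0) / q) (NN q (i + i0)) (ξ ω)‖ / NN q (i + i0))
      (fun i => hmeas (i + i0)) (fun i => ?_) ?_
    · refine Integrable.of_bound ((hmeas (i + i0)).pow_const 2).aestronglyMeasurable 1
        (Eventually.of_forall fun ω => ?_)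
      have h1 := norm_TT_le z hz a (NN q (i + i0) / q) (NN q (i + i0)) (ξ ω)
      have h0 : (0 : ℝ) < NN q (i + i0) := by exact_mod_cast one_le_NN q (i + i0)
      have h2 : ((NN q (i + i0) - NN q (i + i0) / q : ℕ) : ℝ) ≤ NN q (i + i0) := by
        exact_mod_cast Nat.sub_le _ _
      rw [Real.norm_eq_abs, abs_of_nonneg (by positivity)]
      have h3 : ‖TT z a (NN q (i + i0) / q) (NN q (i + i0)) (ξ ω)‖ / NN q (i + i0) ≤ 1 := by
        rw [div_le_one h0]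
        exact h1.trans h2
      have h4 : 0 ≤ ‖TT z a (NN q (i + i0) / q) (NN q (i + i0)) (ξ ω)‖ / NN q (i + i0) := by
        positivity
      nlinarith
    · refine Summable.of_nonneg_of_le (fun i => integral_nonneg fun ω => sq_nonneg _)
        (fun i => hi0 (i + i0) (by omega)) ?_
      have h2 : Summable (fun n : ℕ => C * (1 / (n : ℝ) ^ 2)) :=
        (Real.summable_one_div_nat_pow.mpr one_lt_two).mul_left C
      exact (summable_nat_add_iff (f := fun n : ℕ => C * (1 / (n : ℝ) ^ 2)) i0).mpr h2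
  filter_upwards [key] with ω hω
  exact (tendsto_add_atTop_iff_nat
    (f := fun i : ℕ => ‖TT z a (NN q i / q) (NN q i) (ξ ω)‖ / NN q i) i0).mp hω

end Pool.Agent.R739.RD
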