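import Mathlib
import Pool.Agent.R739.RD.Blk

/-!
# From the sampling points to all `N`
-/

set_option autoImplicit false

open Finset Filter Topology MeasureTheory
open scoped Real

namespace Pool.Agent.R739.RD

open Pool.Agent.H534R3.UDist

lemma TT_add (z : ℕ → ℂ) (a : ℝ) (X N : ℕ) (h : X ≤ N) (x : ℝ) :
    TT z a 0 N x = TT z a 0 X x + TT z a X N x := by
  unfold TT
  exact (Finset.sum_Ioc_consecutive _ (Nat.zero_le X) h).symm

lemma exp_sub_one_le (x : ℝ) (h0 : 0 ≤ x) (h1 : x ≤ 1 / 2) : Real.exp x - 1 ≤ 2 * x := by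
  have h2 := Real.add_one_le_exp (-x)
  have h3 : Real.exp (-x) * Real.exp x = 1 := by rw [← Real.exp_add]; simp
  have h4 := Real.exp_pos x
  nlinarith

theorem tendsto_of_NN (z : ℕ → ℂ) (hz : ∀ n, ‖z n‖ ≤ 1) (a x : ℝ)
    (h : ∀ q : ℕ, 1 ≤ q →
      Tendsto (fun i : ℕ => ‖TT z a (NN q i / q) (NN q i) x‖ / NN q i) atTop (𝓝 0)) :
    Tendsto (fun N : ℕ => ‖TT z a 0 N x‖ / N) atTop (𝓝 0) := by
  rw [Metric.tendsto_atTop]
  intro ε hε
  obtain ⟨q, hq⟩ := exists_nat_gt (8 / ε + 2)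
  have hq0 : (0 : ℝ) < q := by
    have : 0 < 8 / ε := by positivity
    linarith
  have hq2 : (2 : ℝ) ≤ q := by
    have : 0 < 8 / ε := by positivity
    linarith
  have hq1 : 1 ≤ q := by exact_mod_cast hq0
  have hqε : 4 / q < ε / 2 := by
    have h1 : 8 / ε < q := by linarith
    rw [div_lt_iff₀ hε] at h1
    rw [div_lt_iff₀ hq0]
    linarith
  have h1 := h q hq1
  rw [Metric.tendsto_atTop] at h1
  obtain ⟨i0, hi0⟩ := h1 (1 / q) (by positivity)
  obtain ⟨N1, hN1⟩ := exists_nat_gt (max (Real.exp ((i0 + 1 : ℝ) / q)) (6 / ε))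
  refine ⟨N1, fun N hN => ?_⟩
  have hNN1 : (N1 : ℝ) ≤ N := by exact_mod_cast hN
  have hN2 : Real.exp ((i0 + 1 : ℝ) / q) < N := lt_of_le_of_lt (le_max_left _ _)
    (lt_of_lt_of_le hN1 hNN1)
  have hN3 : 6 / ε < N := lt_of_le_of_lt (le_max_right _ _) (lt_of_lt_of_le hN1 hNN1)
  have hN0 : (0 : ℝ) < N := (Real.exp_pos _).trans hN2
  set y : ℝ := q * Real.log N with hy
  have hy1 : (i0 : ℝ) + 1 ≤ y := by
    have h2 : (i0 + 1 : ℝ) / q ≤ Real.log N := by
      rw [Real.le_log_iff_exp_le hN0]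
      exact hN2.le
    rw [div_le_iff₀ hq0] at h2
    linarith
  have hy0 : 0 ≤ y := by
    have : (0 : ℝ) ≤ i0 := Nat.cast_nonneg _
    linarith
  set i : ℕ := ⌊y⌋₊ with hi
  have hi1 : (i : ℝ) ≤ y := Nat.floor_le hy0
  have hi2 : y < i + 1 := Nat.lt_floor_add_one _
  have hii0 : i0 ≤ i := by
    rw [hi]
    apply Nat.le_floor
    linarith
  have hlow : Real.exp ((i : ℝ) / q) ≤ N := by
    rw [← Real.le_log_iff_exp_le hN0, div_le_iff₀ hq0]
    linarith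
  have hup : (N : ℝ) < Real.exp ((i + 1 : ℝ) / q) := by
    rw [← Real.log_lt_iff_lt_exp hN0, lt_div_iff₀ hq0]
    linarith
  set M : ℕ := NN q i with hM
  have hMN : M ≤ N := by
    have : (M : ℝ) ≤ N := (NN_le q i).trans hlow
    exact_mod_cast this
  have hM0 : (0 : ℝ) < M := by exact_mod_cast one_le_NN q i
  have hMN' : (M : ℝ) ≤ N := by exact_mod_cast hMN
  -- the sum up to `M`
  have hb := hi0 i hii0
  rw [Real.dist_eq, sub_zero, abs_of_nonneg (by positivity), div_lt_iff₀ hM0] at hb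
  have hXM : M / q ≤ M := Nat.div_le_self M q
  have hS1 : ‖TT z a 0 M x‖ ≤ 2 * M / q := by
    rw [TT_add z a (M / q) M hXM x]
    refine (norm_add_le _ _).trans ?_
    have h2 := norm_TT_le z hz a 0 (M / q) x
    rw [Nat.sub_zero] at h2
    have h3 : ((M / q : ℕ) : ℝ) ≤ M / q := Nat.cast_div_le
    have e : 2 * (M : ℝ) / q = M / q + 1 / q * M := by ring
    rw [e]
    exact add_le_add (h2.trans h3) hb.le
  have hS2 : ‖TT z a M N x‖ ≤ N - M := by
    have h2 := norm_TT_le z hz a M N x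
    rwa [Nat.cast_sub hMN] at h2
  have hS3 : ‖TT z a 0 N x‖ ≤ 2 * M / q + (N - M) := by
    rw [TT_add z a M N hMN x]
    exact (norm_add_le _ _).trans (add_le_add hS1 hS2)
  have hq' : (1 : ℝ) / q ≤ 1 / 2 := one_div_le_one_div_of_le (by norm_num) hq2
  have hE : Real.exp (1 / (q : ℝ)) - 1 ≤ 2 * (1 / q) :=
    exp_sub_one_le _ (by positivity) hq'
  have hNM : (N : ℝ) - M ≤ 2 / q * N + 2 := by
    have h2 : Real.exp ((i + 1 : ℝ) / q) = Real.exp ((i : ℝ) / q) * Real.exp (1 / (q : ℝ)) := by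
      rw [← Real.exp_add]
      congr 1
      ring
    have h3 := lt_NN q i
    have h4 : (N : ℝ) < (M + 1) * Real.exp (1 / (q : ℝ)) := by
      refine hup.trans ?_
      rw [h2]
      exact mul_lt_mul_of_pos_right h3 (Real.exp_pos _)
    have h5 : (M + 1 : ℝ) * Real.exp (1 / (q : ℝ)) ≤ (M + 1) * (1 + 2 * (1 / q)) := by
      apply mul_le_mul_of_nonneg_left _ (by positivity)
      linarith
    have h6 : 2 * (1 / (q : ℝ)) * M ≤ 2 / q * N := by
      have e : 2 * (1 / (q : ℝ)) = 2 / q := by ring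
      rw [e]
      exact mul_le_mul_of_nonneg_left hMN' (by positivity)
    nlinarith
  rw [Real.dist_eq, sub_zero, abs_of_nonneg (by positivity), div_lt_iff₀ hN0]
  have h7 : 2 * (M : ℝ) / q ≤ 2 / q * N := by
    have e : 2 * (M : ℝ) / q = 2 / q * M := by ring
    rw [e]
    exact mul_le_mul_of_nonneg_left hMN' (by positivity)
  have h8 : (4 : ℝ) / q * N < ε / 2 * N := mul_lt_mul_of_pos_right hqε hN0
  have h9 : 2 / (q : ℝ) * N + 2 / q * N = 4 / q * N := by ring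
  have h10 : 3 < ε / 2 * N := by
    rw [div_lt_iff₀ hε] at hN3
    linarith
  linarith

/-- **The Weyl averages tend to zero almost surely.** -/
theorem ae_weyl {Ω : Type} [MeasurableSpace Ω] (P : Measure Ω)
    [IsProbabilityMeasure P] (ξ : Ω → ℝ) (hξ : Measurable ξ) (b : ℕ) (lam ρ : ℝ) (hb : 2 ≤ b)
    (hlam : lam ≠ 0) (hρ0 : 0 ≤ ρ) (hρ1 : ρ < 1) (hD : Dec P ξ b lam ρ)
    (z : ℕ → ℂ) (hz : ∀ n, ‖z n‖ ≤ 1) (a : ℝ) (ha : a ≠ 0) :
    ∀ᵐ ω ∂P, Tendsto (fun N : ℕ => ‖TT z a 0 N (ξ ω)‖ / N) atTop (𝓝 0) := by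
  have h1 : ∀ q : ℕ, ∀ᵐ ω ∂P, 1 ≤ q →
      Tendsto (fun i : ℕ => ‖TT z a (NN q i / q) (NN q i) (ξ ω)‖ / NN q i) atTop (𝓝 0) := by
    intro q
    by_cases hq : 1 ≤ q
    · filter_upwards [ae_NN P ξ hξ b lam ρ hb hlam hρ0 hρ1 hD z hz a ha q hq] with ω hω _ using hω
    · exact Eventually.of_forall fun ω h => absurd h hq
  filter_upwards [ae_all_iff.2 h1] with ω hω
  exact tendsto_of_NN z hz a (ξ ω) hω

end Pool.Agent.R739.RD
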