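import Mathlib
import Pool.Agent.H446R3.SK.Tor
import Pool.Agent.H534R3.UD
import Pool.Agent.R739.RD.Det

/-!
# Weyl's criterion in the torus
-/

set_option autoImplicit false

open Finset Filter Topology MeasureTheory
open scoped Real

namespace Pool.Agent.R739.RD

open Pool.Agent.H534R3.UDist Pool.Agent.H446R3.SK

lemma mF_exists_ne_one {m : ℕ} {k : Fin m → ℤ} (hk : k ≠ 0) :
    ∃ y : Fin m → UnitAddCircle, mF k y ≠ 1 := by
  obtain ⟨i, hi⟩ : ∃ i, k i ≠ 0 := by
    by_contra hc; push Not at hc; exact hk (funext hc)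
  refine ⟨Pi.single i ((1 / (2 * (k i : ℝ)) : ℝ) : UnitAddCircle), fun h3 => ?_⟩
  simp only [mF, UnitAddTorus.mFourier, ContinuousMap.coe_mk] at h3
  rw [Finset.prod_eq_single i] at h3
  · rw [Pi.single_eq_same, fourier_coe_apply] at h3
    have hki : (k i : ℂ) ≠ 0 := by exact_mod_cast hi
    have h4 : 2 * (Real.pi : ℂ) * Complex.I * (k i : ℂ) * ((1 / (2 * (k i : ℝ)) : ℝ) : ℂ) /
        ((1 : ℝ) : ℂ) = Real.pi * Complex.I := by
      push_cast
      field_simp
    rw [h4, Complex.exp_pi_mul_I] at h3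
    norm_num at h3
  · intro j _ hj
    rw [Pi.single_eq_of_ne hj]
    exact fourier_eval_zero _
  · intro h; exact absurd (Finset.mem_univ i) h

lemma integral_mF {m : ℕ} {k : Fin m → ℤ} (hk : k ≠ 0) :
    ∫ z : Fin m → UnitAddCircle, mF k z = 0 := by
  obtain ⟨y, hne⟩ := mF_exists_ne_one hk
  have h1 : ∫ z, mF k z = ∫ z, mF k (z + y) := (integral_add_right_eq_self (fun z => mF k z) y).symm
  simp only [mF_add] at h1
  rw [integral_mul_const] at h1
  have h2 : (∫ z, mF k z) * (1 - mF k y) = 0 := by linear_combination h1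
  rcases mul_eq_zero.1 h2 with h3 | h3
  · exact h3
  · exact absurd (sub_eq_zero.1 h3).symm hne

/-- averages -/
noncomputable def av {α : Type} (x : ℕ → α) (f : α → ℂ) (N : ℕ) : ℂ :=
  (∑ n ∈ Icc 1 N, f (x n)) / (N : ℂ)

lemma norm_av_le {α : Type} (x : ℕ → α) (f : α → ℂ) (C : ℝ) (hC : 0 ≤ C) (hf : ∀ y, ‖f y‖ ≤ C)
    (N : ℕ) : ‖av x f N‖ ≤ C := by
  unfold av
  rcases Nat.eq_zero_or_pos N with rfl | hN
  · simpa using hC
  · have hN0 : (0 : ℝ) < N := by exact_mod_cast hN
    rw [norm_div, Complex.norm_natCast, div_le_iff₀ hN0]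
    refine (norm_sum_le _ _).trans ?_
    calc ∑ n ∈ Icc 1 N, ‖f (x n)‖ ≤ ∑ n ∈ Icc 1 N, C := sum_le_sum fun n _ => hf _
      _ = C * N := by simp [mul_comm]

theorem weyl_torus {m : ℕ} (x : ℕ → Fin m → UnitAddCircle)
    (h : ∀ k : Fin m → ℤ, k ≠ 0 → Tendsto (av x (mF k)) atTop (𝓝 0))
    (f : C(Fin m → UnitAddCircle, ℂ)) :
    Tendsto (av x f) atTop (𝓝 (∫ z, f z)) := by
  refine cind (P := fun f => Tendsto (av x f) atTop (𝓝 (∫ z, f z))) ?_ ?_ ?_ ?_ ?_ f
  · have : av x (0 : C(Fin m → UnitAddCircle, ℂ)) = fun _ => 0 := by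
      funext N
      simp [av]
    rw [this]
    simp
  · intro k
    by_cases hk : k = 0
    · subst hk
      have h1 : ∀ z, mF (0 : Fin m → ℤ) z = 1 := fun z => by
        simp [mF, UnitAddTorus.mFourier_zero]
      have h2 : ∫ z : Fin m → UnitAddCircle, mF (0 : Fin m → ℤ) z = 1 := by
        simp only [h1]
        rw [integral_const]
        simp
      rw [h2]
      refine tendsto_const_nhds.congr' ?_
      filter_upwards [eventually_gt_atTop 0] with N hN
      have hN0 : (N : ℂ) ≠ 0 := by exact_mod_cast hN.ne'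
      unfold av
      simp only [h1]
      simp [hN0]
    · rw [integral_mF hk]
      exact h k hk
  · intro f g hf hg
    have h1 : av x (f + g : C(Fin m → UnitAddCircle, ℂ)) = fun N => av x f N + av x g N := by
      funext N
      simp only [av, ContinuousMap.add_apply]
      rw [sum_add_distrib, add_div]
    have h2 : ∫ z, (f + g : C(Fin m → UnitAddCircle, ℂ)) z = (∫ z, f z) + ∫ z, g z := by
      simp only [ContinuousMap.add_apply]
      refine integral_add ?_ ?_
      · exact f.continuous.integrable_of_hasCompactSupport (HasCompactSupport.of_compactSpace _)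
      · exact g.continuous.integrable_of_hasCompactSupport (HasCompactSupport.of_compactSpace _)
    rw [h1, h2]
    exact hf.add hg
  · intro c f hf
    have h1 : av x (c • f : C(Fin m → UnitAddCircle, ℂ)) = fun N => c * av x f N := by
      funext N
      simp only [av, ContinuousMap.smul_apply, smul_eq_mul]
      rw [← mul_sum, mul_div_assoc]
    have h2 : ∫ z, (c • f : C(Fin m → UnitAddCircle, ℂ)) z = c * ∫ z, f z := by
      simp only [ContinuousMap.smul_apply, smul_eq_mul]
      exact integral_const_mul _ _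
    rw [h1, h2]
    exact hf.const_mul c
  · intro f hf
    rw [Metric.tendsto_atTop]
    intro ε hε
    obtain ⟨g, hg, hfg⟩ := hf (ε / 3) (by positivity)
    rw [Metric.tendsto_atTop] at hg
    obtain ⟨N0, hN0⟩ := hg (ε / 3) (by positivity)
    refine ⟨N0, fun N hN => ?_⟩
    have h1 := hN0 N hN
    rw [dist_eq_norm] at h1 ⊢
    have hsub : ∀ y, ‖(f - g : C(Fin m → UnitAddCircle, ℂ)) y‖ ≤ ‖f - g‖ :=
      fun y => (f - g).norm_coe_le_norm y
    have h2 : ‖av x f N - av x g N‖ ≤ ‖f - g‖ := by
      have e : av x f N - av x g N = av x (f - g : C(Fin m → UnitAddCircle, ℂ)) N := by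
        simp only [av, ContinuousMap.sub_apply]
        rw [sum_sub_distrib, sub_div]
      rw [e]
      exact norm_av_le x _ _ (norm_nonneg _) hsub N
    have h3 : ‖(∫ z, g z) - ∫ z, f z‖ ≤ ‖f - g‖ := by
      have hfi : Integrable (fun z => f z) (volume : Measure (Fin m → UnitAddCircle)) :=
        f.continuous.integrable_of_hasCompactSupport (HasCompactSupport.of_compactSpace _)
      have hgi : Integrable (fun z => g z) (volume : Measure (Fin m → UnitAddCircle)) :=
        g.continuous.integrable_of_hasCompactSupport (HasCompactSupport.of_compactSpace _)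
      rw [norm_sub_rev, ← integral_sub hfi hgi]
      have := norm_integral_le_of_norm_le_const (μ := (volume : Measure (Fin m → UnitAddCircle)))
        (f := fun z => f z - g z) (C := ‖f - g‖) (Eventually.of_forall fun z => hsub z)
      simpa using this
    have e : av x f N - ∫ z, f z = (av x f N - av x g N) + (av x g N - ∫ z, g z) +
        ((∫ z, g z) - ∫ z, f z) := by ring
    rw [e]
    refine lt_of_le_of_lt (norm_add₃_le) ?_
    linarith

end Pool.Agent.R739.RD
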