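import Mathlib
import Pool.Agent.R739.RD.Wey
import Pool.Agent.R739.RD.Dig
import Pool.Agent.H340R2.LW

/-!
# Equidistribution of `η ξ e ^ n` for random numbers `ξ`
-/

set_option autoImplicit false

open Finset Filter Topology MeasureTheory ProbabilityTheory
open scoped Real

namespace Pool.Agent.R739.RD

open Pool.Agent.H534R3.UDist Pool.Agent.H446R3.SK

lemma Icc_one_eq (N : ℕ) : Icc 1 N = Ioc 0 N := by
  ext n
  rw [mem_Icc, mem_Ioc]
  omega

lemma sum_shift {E : Type} [AddCommMonoid E] (f : ℕ → E) (N : ℕ) :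
    ∑ n ∈ range N, f (n + 1) = ∑ n ∈ Icc 1 N, f n := by
  induction N with
  | zero => simp
  | succ N ih => rw [sum_range_succ, ih, Finset.sum_Icc_succ_top (by omega)]

/-- equidistribution modulo one -/
def Equi (u : ℕ → ℝ) : Prop := ∀ a b : ℝ, 0 ≤ a → a < b → b ≤ 1 →
  Tendsto (fun N : ℕ => (((Icc 1 N).filter
    (fun n : ℕ => a ≤ Int.fract (u n) ∧ Int.fract (u n) < b)).card : ℝ) / (N : ℝ)) atTop
    (𝓝 (b - a))

/-- equidistribution in the torus of dimension `m` -/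
def EquiTorus {m : ℕ} (x : ℕ → Fin m → ℝ) : Prop := ∀ f : C(Fin m → UnitAddCircle, ℂ),
  Tendsto (fun N : ℕ => (∑ n ∈ Icc 1 N, f (fun i => (x n i : UnitAddCircle))) / (N : ℂ)) atTop
    (𝓝 (∫ z, f z))

theorem equi_of_weyl (u : ℕ → ℝ) (h : ∀ h : ℕ, 1 ≤ h →
    Tendsto (fun N : ℕ => ‖∑ n ∈ Icc 1 N, ee (h * u n)‖ / N) atTop (𝓝 0)) : Equi u := by
  intro a b ha hab hb
  have h1 : UD (fun n => u (n + 1)) := by
    apply ud_of_weyl
    intro k hk
    refine (h k hk).congr fun N => ?_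
    rw [sum_shift (fun n => ee (k * u n)) N]
  refine (h1 a b ha hab.le hb).congr fun N => ?_
  congr 1
  rw [Finset.card_filter, Finset.card_filter]
  push_cast
  rw [sum_shift (fun n => if a ≤ Int.fract (u n) ∧ Int.fract (u n) < b then (1 : ℝ) else 0) N]

lemma mF_coe {m : ℕ} (k : Fin m → ℤ) (x : Fin m → ℝ) :
    mF k (fun i => (x i : UnitAddCircle)) = ee (∑ i, k i * x i) := by
  simp only [mF, UnitAddTorus.mFourier, ContinuousMap.coe_mk]
  have h1 : ∀ i, (fourier (k i) : C(UnitAddCircle, ℂ)) (x i : UnitAddCircle) =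
      Complex.exp (2 * π * Complex.I * (k i * x i : ℝ)) := by
    intro i
    rw [fourier_coe_apply]
    congr 1
    push_cast
    ring
  rw [ee, Finset.prod_congr rfl fun i _ => h1 i, ← Complex.exp_sum]
  congr 1
  push_cast
  rw [← mul_sum]

theorem equiTorus_of_weyl {m : ℕ} (x : ℕ → Fin m → ℝ) (h : ∀ k : Fin m → ℤ, k ≠ 0 →
    Tendsto (fun N : ℕ => ‖∑ n ∈ Icc 1 N, ee (∑ i, k i * x n i)‖ / N) atTop (𝓝 0)) :
    EquiTorus x := by
  intro f
  refine weyl_torus (fun n i => (x n i : UnitAddCircle)) (fun k hk => ?_) f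
  rw [tendsto_zero_iff_norm_tendsto_zero]
  refine (h k hk).congr fun N => ?_
  unfold av
  rw [norm_div, Complex.norm_natCast]
  simp only [mF_coe]

/-- the conclusions of the theorem -/
def Conclusion {Ω : Type} [MeasurableSpace Ω] (P : Measure Ω) (ξ : Ω → ℝ) : Prop :=
  (∀ η : ℝ, η ≠ 0 → ∀ z : ℕ → ℂ, (∀ n, ‖z n‖ ≤ 1) → ∀ᵐ ω ∂P, Tendsto (fun N : ℕ =>
    (∑ n ∈ Icc 1 N, z n * Complex.exp (2 * π * Complex.I * (η * ξ ω * Real.exp n : ℝ))) / (N : ℂ))
    atTop (𝓝 0)) ∧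
  (∀ η : ℝ, η ≠ 0 → ∀ θ : ℕ → ℝ, ∀ᵐ ω ∂P, Equi fun n => η * ξ ω * Real.exp n + θ n) ∧
  (∀ (m : ℕ) (η : Fin m → ℝ), LinearIndependent ℚ η → ∀ θ : ℕ → Fin m → ℝ, ∀ᵐ ω ∂P,
    EquiTorus fun n i => η i * ξ ω * Real.exp n + θ n i) ∧
  (∀ η : ℝ, η ≠ 0 → ∀ᵐ ω ∂P, ∀ m : ℕ, EquiTorus fun n (i : Fin m) =>
    η * ξ ω * Real.exp (n + (i : ℕ)))

lemma lin_exp (m : ℕ) (η : ℝ) (hη : η ≠ 0) :
    LinearIndependent ℚ (fun i : Fin m => η * Real.exp ((i : ℕ) : ℝ)) := by
  rw [Fintype.linearIndependent_iff]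
  intro g hg i
  have ht := Pool.Agent.H340R2.LW.transcendental_exp_one
  set p : Polynomial ℚ := ∑ j : Fin m, Polynomial.monomial (j : ℕ) (g j) with hp
  have h1 : Polynomial.aeval (Real.exp 1) p = 0 := by
    rw [hp, map_sum]
    simp only [Polynomial.aeval_monomial]
    have h2 : ∑ j : Fin m, g j • (η * Real.exp ((j : ℕ) : ℝ)) =
        η * ∑ j : Fin m, (algebraMap ℚ ℝ) (g j) * Real.exp 1 ^ (j : ℕ) := by
      rw [mul_sum]
      refine sum_congr rfl fun j _ => ?_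
      rw [Algebra.smul_def, ← Real.exp_nat_mul, mul_one]
      ring
    rw [h2] at hg
    rcases mul_eq_zero.1 hg with h3 | h3
    · exact absurd h3 hη
    · exact h3
  have h2 : p = 0 := by
    by_contra hne
    exact ht ⟨p, hne, h1⟩
  have h3 : p.coeff i = g i := by
    rw [hp, Polynomial.finsetSum_coeff]
    rw [Finset.sum_eq_single i]
    · rw [Polynomial.coeff_monomial, if_pos rfl]
    · intro j _ hj
      rw [Polynomial.coeff_monomial, if_neg]
      intro h
      exact hj (Fin.ext h)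
    · intro h
      exact absurd (mem_univ i) h
  rw [← h3, h2, Polynomial.coeff_zero]

theorem conclusion_of {Ω : Type} [MeasurableSpace Ω] (P : Measure Ω)
    [IsProbabilityMeasure P] (ξ : Ω → ℝ)
    (H : ∀ (z : ℕ → ℂ), (∀ n, ‖z n‖ ≤ 1) → ∀ a : ℝ, a ≠ 0 →
      ∀ᵐ ω ∂P, Tendsto (fun N : ℕ => ‖TT z a 0 N (ξ ω)‖ / N) atTop (𝓝 0)) : Conclusion P ξ := by
  have h3 : ∀ (m : ℕ) (η : Fin m → ℝ), LinearIndependent ℚ η → ∀ θ : ℕ → Fin m → ℝ, ∀ᵐ ω ∂P,
      EquiTorus fun n i => η i * ξ ω * Real.exp n + θ n i := by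
    intro m η hη θ
    have h1 : ∀ k : Fin m → ℤ, ∀ᵐ ω ∂P, k ≠ 0 → Tendsto (fun N : ℕ =>
        ‖∑ n ∈ Icc 1 N, ee (∑ i, k i * (η i * ξ ω * Real.exp n + θ n i))‖ / N) atTop (𝓝 0) := by
      intro k
      by_cases hk : k ≠ 0
      · have ha : (∑ i, k i * η i) ≠ 0 := by
          intro h0
          apply hk
          rw [Fintype.linearIndependent_iff] at hη
          have h2 := hη (fun i => (k i : ℚ)) (by
            rw [← h0]
            refine sum_congr rfl fun i _ => ?_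
            rw [Algebra.smul_def]
            simp)
          funext i
          have := h2 i
          simpa using this
        filter_upwards [H (fun n => ee (∑ i, k i * θ n i)) (fun n => (norm_ee _).le)
          (∑ i, k i * η i) ha] with ω hω _
        refine hω.congr fun N => ?_
        rw [Icc_one_eq]
        unfold TT
        congr 2
        refine sum_congr rfl fun n _ => ?_
        rw [← ee_add]
        congr 1
        rw [sum_mul, sum_mul, ← sum_add_distrib]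
        refine sum_congr rfl fun i _ => ?_
        ring
      · exact Eventually.of_forall fun ω h => absurd h hk
    filter_upwards [ae_all_iff.2 h1] with ω hω
    exact equiTorus_of_weyl _ fun k hk => hω k hk
  refine ⟨?_, ?_, h3, ?_⟩
  · intro η hη z hz
    filter_upwards [H z hz η hη] with ω hω
    rw [tendsto_zero_iff_norm_tendsto_zero]
    refine hω.congr fun N => ?_
    rw [norm_div, Complex.norm_natCast, Icc_one_eq]
    rfl
  · intro η hη θ
    have h1 : ∀ h : ℕ, ∀ᵐ ω ∂P, 1 ≤ h → Tendsto (fun N : ℕ =>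
        ‖∑ n ∈ Icc 1 N, ee (h * (η * ξ ω * Real.exp n + θ n))‖ / N) atTop (𝓝 0) := by
      intro h
      by_cases hh : 1 ≤ h
      · have hh0 : (h : ℝ) ≠ 0 := by
          have : h ≠ 0 := by omega
          exact_mod_cast this
        filter_upwards [H (fun n => ee (h * θ n)) (fun n => (norm_ee _).le)
          (h * η) (mul_ne_zero hh0 hη)] with ω hω _
        refine hω.congr fun N => ?_
        rw [Icc_one_eq]
        unfold TT
        congr 2
        refine sum_congr rfl fun n _ => ?_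
        rw [← ee_add]
        congr 1
        ring
      · exact Eventually.of_forall fun ω h => absurd h hh
    filter_upwards [ae_all_iff.2 h1] with ω hω
    exact equi_of_weyl _ fun k hk => hω k hk
  · intro η hη
    rw [ae_all_iff]
    intro m
    filter_upwards [h3 m (fun i => η * Real.exp ((i : ℕ) : ℝ)) (lin_exp m η hη)
      (fun _ _ => 0)] with ω hω
    have e : (fun (n : ℕ) (i : Fin m) => η * ξ ω * Real.exp (n + (i : ℕ))) =
        fun (n : ℕ) (i : Fin m) => η * Real.exp ((i : ℕ) : ℝ) * ξ ω * Real.exp n + 0 := by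
      funext n i
      rw [Real.exp_add]
      ring
    rw [e]
    exact hω

lemma summable_digits (b : ℕ) (hb : 2 ≤ b) (M : ℝ) (d : ℕ → ℝ) (hd : ∀ j, |d j| ≤ M) :
    Summable fun j => d j / (b : ℝ) ^ (j + 1) := by
  have hb2 : (2 : ℝ) ≤ b := by exact_mod_cast hb
  have hb0 : (0 : ℝ) < b := by linarith
  have h1 : Summable fun j : ℕ => M * (1 / (b : ℝ)) ^ j := by
    refine (summable_geometric_of_lt_one (by positivity) ?_).mul_left M
    rw [div_lt_one hb0]
    linarith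
  have hM : 0 ≤ M := (abs_nonneg _).trans (hd 0)
  refine Summable.of_norm_bounded h1 fun j => ?_
  rw [Real.norm_eq_abs, abs_div, abs_of_pos (by positivity : (0 : ℝ) < (b : ℝ) ^ (j + 1)),
    one_div_pow, mul_one_div]
  apply div_le_div₀ hM (hd j) (by positivity)
  exact pow_le_pow_right₀ (by linarith) (by omega)

theorem main_int {Ω : Type} [MeasurableSpace Ω] (P : Measure Ω) [IsProbabilityMeasure P]
    (b : ℕ) (hb : 2 ≤ b) (M : ℕ) (c : ℝ) (hc : 0 < c) (D : ℕ → Ω → ℤ) (hD : ∀ j, Measurable (D j))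
    (hI : iIndepFun D P) (hM : ∀ j ω, |D j ω| ≤ M) (hcD : ∀ j d, P.real {ω | D j ω = d} ≤ 1 - c) :
    Conclusion P fun ω => ∑' j, (D j ω : ℝ) / (b : ℝ) ^ (j + 1) := by
  have hsum : ∀ ω, Summable fun j => (D j ω : ℝ) / (b : ℝ) ^ (j + 1) := fun ω =>
    summable_digits b hb M _ fun j => by exact_mod_cast hM j ω
  have hs : ∀ ω, Tendsto (fun n => ∑ j ∈ range n, (D j ω : ℝ) / (b : ℝ) ^ (j + 1)) atTop
      (𝓝 (∑' j, (D j ω : ℝ) / (b : ℝ) ^ (j + 1))) := fun ω => (hsum ω).hasSum.tendsto_sum_nat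
  have hmeas : ∀ n, Measurable fun ω => ∑ j ∈ range n, (D j ω : ℝ) / (b : ℝ) ^ (j + 1) := fun n =>
    Finset.measurable_fun_sum _ fun j _ =>
      ((measurable_from_top (f := fun n : ℤ => (n : ℝ))).comp (hD j)).div_const _
  have hξ : Measurable fun ω => ∑' j, (D j ω : ℝ) / (b : ℝ) ^ (j + 1) :=
    measurable_of_tendsto_metrizable hmeas (tendsto_pi_nhds.2 hs)
  obtain ⟨lam, ρ, hlam, hρ0, hρ1, hdec⟩ := dec_int P b hb M c hc D hD hI hM hcD _ hs
  exact conclusion_of P _ fun z hz a ha =>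
    ae_weyl P _ hξ b lam ρ hb hlam hρ0 hρ1 hdec z hz a ha

theorem main_real {Ω : Type} [MeasurableSpace Ω] (P : Measure Ω) [IsProbabilityMeasure P]
    (b : ℕ) (hb : 2 ≤ b) (F : Finset ℝ) (D : ℕ → Ω → ℝ) (hD : ∀ j, Measurable (D j))
    (hI : iIndepFun D P) (hid : ∀ j, IdentDistrib (D j) (D 0) P P) (hF : ∀ j ω, D j ω ∈ F)
    (hne : ∀ d, P.real {ω | D 0 ω = d} < 1) :
    Conclusion P fun ω => ∑' j, D j ω / (b : ℝ) ^ (j + 1) := by
  obtain ⟨M, hM⟩ : ∃ M : ℝ, ∀ x ∈ F, |x| ≤ M := by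
    refine ⟨∑ x ∈ F, |x|, fun x hx => ?_⟩
    exact Finset.single_le_sum (f := fun x => |x|) (fun y _ => abs_nonneg y) hx
  have hsum : ∀ ω, Summable fun j => D j ω / (b : ℝ) ^ (j + 1) := fun ω =>
    summable_digits b hb M _ fun j => hM _ (hF j ω)
  have hs : ∀ ω, Tendsto (fun n => ∑ j ∈ range n, D j ω / (b : ℝ) ^ (j + 1)) atTop
      (𝓝 (∑' j, D j ω / (b : ℝ) ^ (j + 1))) := fun ω => (hsum ω).hasSum.tendsto_sum_nat
  have hmeas : ∀ n, Measurable fun ω => ∑ j ∈ range n, D j ω / (b : ℝ) ^ (j + 1) := fun n =>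
    Finset.measurable_fun_sum _ fun j _ => (hD j).div_const _
  have hξ : Measurable fun ω => ∑' j, D j ω / (b : ℝ) ^ (j + 1) :=
    measurable_of_tendsto_metrizable hmeas (tendsto_pi_nhds.2 hs)
  obtain ⟨lam, ρ, hlam, hρ0, hρ1, hdec⟩ := dec_real P b hb F D hD hI hid hF hne _ hs
  exact conclusion_of P _ fun z hz a ha =>
    ae_weyl P _ hξ b lam ρ hb hlam hρ0 hρ1 hdec z hz a ha

end Pool.Agent.R739.RD
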